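import Mathlib

/-!
Counting lemmas on the lattice of subspaces of a finite vector space.
-/

namespace Pool.Agent.W35.Sub3

open Module Finset Classical

noncomputable section

variable {F : Type*} [Field F] [Fintype F] {V : Type*} [AddCommGroup V] [Module F V]
  [Module.Finite F V]

instance subFintype : Fintype (Submodule F V) := by
  haveI : Finite V := Module.finite_of_finite F
  exact Fintype.ofFinite _

/-- dimension of a subspace -/
def dm (W : Submodule F V) : ℕ := finrank F W

theorem dm_mono {A B : Submodule F V} (h : A ≤ B) : dm A ≤ dm B := Submodule.finrank_mono h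

theorem dm_lt {A B : Submodule F V} (h : A < B) : dm A < dm B :=
  Submodule.finrank_lt_finrank_of_lt h

theorem eq_of_le_dm {A B : Submodule F V} (h : A ≤ B) (h2 : dm B ≤ dm A) : A = B :=
  Submodule.eq_of_le_of_finrank_le h h2

theorem dm_sup_inf (A B : Submodule F V) : dm (A ⊔ B) + dm (A ⊓ B) = dm A + dm B :=
  Submodule.finrank_sup_add_finrank_inf_eq A B

theorem dm_bot : dm (⊥ : Submodule F V) = 0 := by simp [dm]

theorem dm_top : dm (⊤ : Submodule F V) = finrank F V := by simp [dm]

theorem dm_span_singleton_le (v : V) : dm (Submodule.span F {v}) ≤ 1 := by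
  unfold dm
  by_cases h : v = 0
  · rw [h, Submodule.span_zero_singleton, finrank_bot]; omega
  · exact (finrank_span_singleton h).le

theorem dm_sup_span {D : Submodule F V} {v : V} (hv : v ∉ D) :
    dm (D ⊔ Submodule.span F {v}) = dm D + 1 := by
  have h1 : D < D ⊔ Submodule.span F {v} := by
    refine lt_of_le_of_ne le_sup_left (fun h => hv ?_)
    rw [h]
    exact Submodule.mem_sup_right (Submodule.mem_span_singleton_self v)
  have h2 := dm_lt h1
  have h3 := dm_sup_inf D (Submodule.span F {v})
  have h4 := dm_span_singleton_le (F := F) v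
  omega

/-- number of vectors -/
theorem card_mem [Fintype V] (W : Submodule F V) :
    (univ.filter (fun x : V => x ∈ W)).card = Fintype.card F ^ dm W := by
  have := Module.card_eq_pow_finrank (K := F) (V := W)
  unfold dm
  rw [← this, ← Fintype.card_subtype]

theorem card_sdiff' [Fintype V] {A B : Submodule F V} (h : A ≤ B) :
    (univ.filter (fun x : V => x ∈ B ∧ x ∉ A)).card + Fintype.card F ^ dm A
      = Fintype.card F ^ dm B := by
  rw [← card_mem A, ← card_mem B, ← Finset.card_union_of_disjoint]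
  · congr 1
    ext x
    simp only [mem_union, mem_filter, mem_univ, true_and]
    constructor
    · rintro (h1 | h1)
      · exact h1.1
      · exact h h1
    · intro h1
      by_cases h2 : x ∈ A
      · right; exact h2
      · left; exact ⟨h1, h2⟩
  · rw [Finset.disjoint_left]
    intro x hx hx2
    simp only [mem_filter, mem_univ, true_and] at hx hx2
    exact hx.2 hx2

theorem dm_of_line {A D L : Submodule F V} {v : V} (hv : v ∉ D)
    (h1 : A ≤ L) (h2 : L ≤ D ⊔ Submodule.span F {v}) (h3 : L ⊓ D = A) (h4 : L ≠ A) :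
    dm L = dm A + 1 := by
  have h5 : dm A < dm L := dm_lt (lt_of_le_of_ne h1 (Ne.symm h4))
  have h6 := dm_sup_inf L D
  rw [h3] at h6
  have h7 : dm (L ⊔ D) ≤ dm (D ⊔ Submodule.span F {v}) := dm_mono (sup_le h2 le_sup_left)
  rw [dm_sup_span hv] at h7
  omega

theorem count_lines {A D : Submodule F V} {v : V} (hAD : A ≤ D) (hv : v ∉ D) :
    (univ.filter (fun L : Submodule F V =>
      A ≤ L ∧ L ≤ D ⊔ Submodule.span F {v} ∧ L ⊓ D = A ∧ L ≠ A)).card
      = Fintype.card F ^ (dm D - dm A) := by
  haveI : Finite V := Module.finite_of_finite F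
  haveI : Fintype V := Fintype.ofFinite V
  set D' := D ⊔ Submodule.span F {v} with hD'
  set LL := univ.filter (fun L : Submodule F V => A ≤ L ∧ L ≤ D' ∧ L ⊓ D = A ∧ L ≠ A) with hLL
  set S := univ.filter (fun x : V => x ∈ D' ∧ x ∉ D) with hS
  have hmaps : Set.MapsTo (fun x : V => A ⊔ Submodule.span F {x}) (S : Set V)
      (LL : Set (Submodule F V)) := by
    intro x hx
    simp only [hS, coe_filter, mem_univ, true_and, Set.mem_setOf_eq] at hx
    simp only [hLL, coe_filter, mem_univ, true_and, Set.mem_setOf_eq]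
    obtain ⟨hx1, hx2⟩ := hx
    refine ⟨le_sup_left, sup_le (hAD.trans le_sup_left) ?_, ?_, ?_⟩
    · rw [Submodule.span_singleton_le_iff_mem]; exact hx1
    · apply le_antisymm
      · rintro y ⟨hy1, hy2⟩
        obtain ⟨a, ha, s, hs, rfl⟩ := Submodule.mem_sup.1 hy1
        obtain ⟨c, rfl⟩ := Submodule.mem_span_singleton.1 hs
        by_cases hc : c = 0
        · subst hc; simpa using ha
        · exfalso
          apply hx2
          have h1 : c • x ∈ D := by
            have := D.sub_mem hy2 (hAD ha)
            simpa using this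
          have h2 := D.smul_mem c⁻¹ h1
          rwa [smul_smul, inv_mul_cancel₀ hc, one_smul] at h2
      · exact le_inf le_sup_left hAD
    · intro h
      apply hx2
      apply hAD
      rw [← h]
      exact Submodule.mem_sup_right (Submodule.mem_span_singleton_self x)
  have hcard := Finset.card_eq_sum_card_fiberwise hmaps
  have hfib : ∀ L ∈ LL, (S.filter (fun x => A ⊔ Submodule.span F {x} = L)).card
      = Fintype.card F ^ (dm A + 1) - Fintype.card F ^ (dm A) := by
    intro L hL
    simp only [hLL, mem_filter, mem_univ, true_and] at hL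
    obtain ⟨hL1, hL2, hL3, hL4⟩ := hL
    have hdL := dm_of_line hv hL1 hL2 hL3 hL4
    have h1 := card_sdiff' hL1
    have h2 : S.filter (fun x => A ⊔ Submodule.span F {x} = L)
        = univ.filter (fun x : V => x ∈ L ∧ x ∉ A) := by
      ext x
      simp only [hS, mem_filter, mem_univ, true_and]
      constructor
      · rintro ⟨⟨hx1, hx2⟩, hx3⟩
        refine ⟨?_, fun h => hx2 (hAD h)⟩
        rw [← hx3]
        exact Submodule.mem_sup_right (Submodule.mem_span_singleton_self x)
      · rintro ⟨hx1, hx2⟩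
        refine ⟨⟨hL2 hx1, fun h => hx2 ?_⟩, ?_⟩
        · rw [← hL3]; exact ⟨hx1, h⟩
        · apply eq_of_le_dm
          · apply sup_le hL1
            rw [Submodule.span_singleton_le_iff_mem]; exact hx1
          · rw [dm_sup_span hx2, hdL]
    rw [h2]
    rw [hdL] at h1
    omega
  rw [Finset.sum_congr rfl hfib, Finset.sum_const, smul_eq_mul] at hcard
  have hS1 := card_sdiff' (F := F) (A := D) (B := D') le_sup_left
  rw [show dm D' = dm D + 1 from dm_sup_span hv] at hS1
  change S.card + _ = _ at hS1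
  rw [hcard] at hS1
  have hle : dm A ≤ dm D := dm_mono hAD
  obtain ⟨c, hc⟩ := Nat.exists_eq_add_of_le hle
  rw [hc, Nat.add_sub_cancel_left]
  rw [hc] at hS1
  set q := Fintype.card F with hq
  have hq1 : 1 < q := Fintype.one_lt_card
  have e1 : q ^ (dm A + 1) - q ^ dm A = (q - 1) * q ^ dm A := by
    rw [pow_succ, Nat.sub_mul, one_mul, mul_comm q]
  rw [e1] at hS1
  have e2 : LL.card * ((q - 1) * q ^ dm A) = q ^ c * ((q - 1) * q ^ dm A) := by
    have : q ^ (dm A + c + 1) = q ^ c * ((q - 1) * q ^ dm A) + q ^ (dm A + c) := by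
      obtain ⟨r, hr⟩ : ∃ r, q = r + 1 := ⟨q - 1, by omega⟩
      rw [hr, Nat.add_sub_cancel]
      ring
    omega
  have hpos : 0 < (q - 1) * q ^ dm A := Nat.mul_pos (by omega) (by positivity)
  exact Nat.eq_of_mul_eq_mul_right hpos e2

/-- **Lemma A.** -/
theorem lemA {R : Type*} [CommRing R] (z : R) (n : ℕ) :
    ∀ (A D B : Submodule F V), A ≤ D → D ≤ B → dm B = dm D + n →
    ∑ C ∈ univ.filter (fun C : Submodule F V => A ≤ C ∧ C ≤ B ∧ C ⊓ D = A),
      ∏ i ∈ Finset.Ico (dm D - dm A) (dm B - dm C), (z - (Fintype.card F : R) ^ i) = z ^ n := by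
  induction n with
  | zero =>
    intro A D B hAD hDB hn
    have hDB' : D = B := eq_of_le_dm hDB (by omega)
    subst hDB'
    have : univ.filter (fun C : Submodule F V => A ≤ C ∧ C ≤ D ∧ C ⊓ D = A) = {A} := by
      ext C
      simp only [mem_filter, mem_univ, true_and, mem_singleton]
      constructor
      · rintro ⟨_, h2, h3⟩
        rw [← h3]; exact (inf_eq_left.2 h2).symm
      · rintro rfl
        exact ⟨le_rfl, hAD, inf_eq_left.2 hAD⟩
    rw [this, sum_singleton]
    simp
  | succ n ih =>
    intro A D B hAD hDB hn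
    have hlt : D < B := by
      refine lt_of_le_of_ne hDB (fun h => ?_)
      rw [h] at hn; omega
    obtain ⟨v, hvB, hvD⟩ := SetLike.exists_of_lt hlt
    set D' := D ⊔ Submodule.span F {v} with hD'
    have hdD' : dm D' = dm D + 1 := dm_sup_span hvD
    have hD'B : D' ≤ B := sup_le hDB (by rw [Submodule.span_singleton_le_iff_mem]; exact hvB)
    have hDD' : D ≤ D' := le_sup_left
    set S := univ.filter (fun C : Submodule F V => A ≤ C ∧ C ≤ B ∧ C ⊓ D = A) with hS
    set T := univ.filter (fun L : Submodule F V => A ≤ L ∧ L ≤ D' ∧ L ⊓ D = A) with hT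
    have hmaps : ∀ C ∈ S, C ⊓ D' ∈ T := by
      intro C hC
      simp only [hS, mem_filter, mem_univ, true_and] at hC
      simp only [hT, mem_filter, mem_univ, true_and]
      refine ⟨le_inf hC.1 (hAD.trans hDD'), inf_le_right, ?_⟩
      rw [inf_assoc, inf_eq_right.2 hDD']
      exact hC.2.2
    rw [← Finset.sum_fiberwise_of_maps_to hmaps]
    have hdA : dm A ≤ dm D := dm_mono hAD
    have hfib : ∀ L ∈ T, S.filter (fun C => C ⊓ D' = L)
        = univ.filter (fun C : Submodule F V => L ≤ C ∧ C ≤ B ∧ C ⊓ D' = L) := by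
      intro L hL
      simp only [hT, mem_filter, mem_univ, true_and] at hL
      ext C
      simp only [hS, mem_filter, mem_univ, true_and]
      constructor
      · rintro ⟨⟨_, h2, _⟩, h4⟩
        refine ⟨?_, h2, h4⟩
        rw [← h4]; exact inf_le_left
      · rintro ⟨h1, h2, h3⟩
        refine ⟨⟨hL.1.trans h1, h2, ?_⟩, h3⟩
        rw [← hL.2.2, ← h3, inf_assoc, inf_eq_right.2 hDD']
    have hTsplit : T = insert A (univ.filter (fun L : Submodule F V =>
        A ≤ L ∧ L ≤ D' ∧ L ⊓ D = A ∧ L ≠ A)) := by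
      ext L
      simp only [hT, mem_filter, mem_univ, true_and, mem_insert]
      constructor
      · rintro ⟨h1, h2, h3⟩
        by_cases h : L = A
        · left; exact h
        · right; exact ⟨h1, h2, h3, h⟩
      · rintro (h | h)
        · subst h
          exact ⟨le_rfl, hAD.trans hDD', inf_eq_left.2 hAD⟩
        · exact ⟨h.1, h.2.1, h.2.2.1⟩
    have hnot : A ∉ univ.filter (fun L : Submodule F V =>
        A ≤ L ∧ L ≤ D' ∧ L ⊓ D = A ∧ L ≠ A) := by
      simp
    have hAT : A ∈ T := by rw [hTsplit]; exact mem_insert_self _ _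
    rw [hTsplit, sum_insert hnot]
    -- the term L = A
    have hA : ∑ C ∈ S.filter (fun C => C ⊓ D' = A),
        ∏ i ∈ Finset.Ico (dm D - dm A) (dm B - dm C), (z - (Fintype.card F : R) ^ i)
        = (z - (Fintype.card F : R) ^ (dm D - dm A)) * z ^ n := by
      rw [hfib A hAT, ← ih A D' B (hAD.trans hDD') hD'B (by omega), Finset.mul_sum]
      apply Finset.sum_congr rfl
      intro C hC
      simp only [mem_filter, mem_univ, true_and] at hC
      have h1 := dm_sup_inf C D'
      rw [hC.2.2] at h1
      have h2 : dm (C ⊔ D') ≤ dm B := dm_mono (sup_le hC.2.1 hD'B)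
      rw [Finset.prod_eq_prod_Ico_succ_bot (by omega)]
      rw [show dm D' - dm A = dm D - dm A + 1 by omega]
    -- the other terms
    have hL : ∀ L ∈ univ.filter (fun L : Submodule F V =>
        A ≤ L ∧ L ≤ D' ∧ L ⊓ D = A ∧ L ≠ A), ∑ C ∈ S.filter (fun C => C ⊓ D' = L),
        ∏ i ∈ Finset.Ico (dm D - dm A) (dm B - dm C), (z - (Fintype.card F : R) ^ i)
        = z ^ n := by
      intro L hL
      have hLT : L ∈ T := by rw [hTsplit]; exact mem_insert_of_mem hL
      simp only [mem_filter, mem_univ, true_and] at hL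
      rw [hfib L hLT, ← ih L D' B hL.2.1 hD'B (by omega)]
      have hdL := dm_of_line hvD hL.1 hL.2.1 hL.2.2.1 hL.2.2.2
      apply Finset.sum_congr rfl
      intro C hC
      rw [show dm D' - dm L = dm D - dm A by omega]
    rw [hA, Finset.sum_congr rfl hL, Finset.sum_const, count_lines hAD hvD, nsmul_eq_mul]
    push_cast
    ring

/-- rank and nullity of a restriction -/
theorem dm_map_add (τ : V →ₗ[F] V) (C : Submodule F V) :
    dm (C.map τ) + dm (C ⊓ LinearMap.ker τ) = dm C := by
  have h := LinearMap.finrank_range_add_finrank_ker (τ.domRestrict C)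
  have e1 : LinearMap.range (τ.domRestrict C) = C.map τ := by
    ext x; simp [Submodule.mem_map]
  have e2 : finrank F (LinearMap.ker (τ.domRestrict C)) = dm (C ⊓ LinearMap.ker τ) := by
    have e3 : LinearMap.ker (τ.domRestrict C) = (LinearMap.ker τ).comap C.subtype := by
      ext x; simp
    rw [e3]
    unfold dm
    rw [← Submodule.map_comap_subtype, Submodule.finrank_map_subtype_eq]
  rw [e1, e2] at h
  exact h

/-- dimension formula for images modulo a subspace -/
theorem dm_sup_map (τ : V →ₗ[F] V) (P C : Submodule F V) :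
    dm (P ⊔ C.map τ) + dm (C ⊓ P.comap τ) = dm P + dm C := by
  have h1 := dm_sup_inf P (C.map τ)
  have h2 := dm_map_add τ C
  have h3 := dm_map_add τ (C ⊓ P.comap τ)
  have e1 : (C ⊓ P.comap τ).map τ = P ⊓ C.map τ := by
    ext x
    simp only [Submodule.mem_map, Submodule.mem_inf, Submodule.mem_comap]
    constructor
    · rintro ⟨y, ⟨h4, h5⟩, rfl⟩
      exact ⟨h5, y, h4, rfl⟩
    · rintro ⟨h4, y, h5, rfl⟩
      exact ⟨y, ⟨h5, h4⟩, rfl⟩
  have e2 : C ⊓ P.comap τ ⊓ LinearMap.ker τ = C ⊓ LinearMap.ker τ := by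
    ext x
    simp only [Submodule.mem_inf, Submodule.mem_comap, LinearMap.mem_ker]
    constructor
    · rintro ⟨⟨h4, h5⟩, h6⟩
      exact ⟨h4, h6⟩
    · rintro ⟨h4, h6⟩
      refine ⟨⟨h4, ?_⟩, h6⟩
      rw [h6]; exact P.zero_mem
  rw [e1, e2] at h3
  omega

/-! ### The dual statement -/

theorem dm_dualAnn (W : Submodule F V) :
    dm W + dm (W.dualAnnihilator) = finrank F V :=
  Subspace.finrank_add_finrank_dualAnnihilator_eq W

/-- **Lemma A, dual form.** -/
theorem lemA' {R : Type*} [CommRing R] (z : R) (A D B : Submodule F V) (hAD : A ≤ D)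
    (hDB : D ≤ B) :
    ∑ C ∈ univ.filter (fun C : Submodule F V => A ≤ C ∧ C ≤ B ∧ C ⊔ D = B),
      ∏ i ∈ Finset.Ico (dm B - dm D) (dm C - dm A), (z - (Fintype.card F : R) ^ i)
      = z ^ (dm D - dm A) := by
  have hA := dm_dualAnn A
  have hB := dm_dualAnn B
  have hD := dm_dualAnn D
  have h1 : dm A ≤ dm D := dm_mono hAD
  have h2 : dm D ≤ dm B := dm_mono hDB
  have key := lemA (F := F) (V := Dual F V) z (dm D - dm A)
    B.dualAnnihilator D.dualAnnihilator A.dualAnnihilator
    (Submodule.dualAnnihilator_anti hDB) (Submodule.dualAnnihilator_anti hAD) (by omega)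
  rw [← key]
  refine Finset.sum_bij' (fun C _ => C.dualAnnihilator) (fun C _ => C.dualCoannihilator)
    ?_ ?_ ?_ ?_ ?_
  · intro C hC
    simp only [mem_filter, mem_univ, true_and] at hC ⊢
    refine ⟨Submodule.dualAnnihilator_anti hC.2.1, Submodule.dualAnnihilator_anti hC.1, ?_⟩
    rw [← hC.2.2, Submodule.dualAnnihilator_sup_eq]
  · intro C hC
    simp only [mem_filter, mem_univ, true_and] at hC ⊢
    have e : ∀ W : Submodule F V, W.dualAnnihilator.dualCoannihilator = W :=
      fun W => Subspace.dualAnnihilator_dualCoannihilator_eq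
    refine ⟨?_, ?_, ?_⟩
    · rw [← e A]; exact Submodule.dualCoannihilator_anti hC.2.1
    · rw [← e B]; exact Submodule.dualCoannihilator_anti hC.1
    · have : (C.dualCoannihilator ⊔ D).dualAnnihilator = B.dualAnnihilator := by
        rw [Submodule.dualAnnihilator_sup_eq, Subspace.dualCoannihilator_dualAnnihilator_eq, hC.2.2]
      rw [← e (C.dualCoannihilator ⊔ D), this, e]
  · intro C hC
    exact Subspace.dualAnnihilator_dualCoannihilator_eq
  · intro C hC
    exact Subspace.dualCoannihilator_dualAnnihilator_eq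
  · intro C hC
    have hC' := dm_dualAnn C
    simp only [mem_filter, mem_univ, true_and] at hC
    have h3 : dm A ≤ dm C := dm_mono hC.1
    have h4 : dm C ≤ dm B := dm_mono hC.2.1
    congr 1
    congr 1 <;> omega

/-! ### Moebius function -/

/-- the Moebius function of the lattice of subspaces -/
def mu (q : ℕ) (R : Type*) [CommRing R] (n : ℕ) : R := (-1) ^ n * (q : R) ^ (n.choose 2)

theorem mu_zero (q : ℕ) (R : Type*) [CommRing R] : mu q R 0 = 1 := by simp [mu]

theorem mu_succ (q : ℕ) (R : Type*) [CommRing R] (n : ℕ) :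
    mu q R (n + 1) = mu q R n * (0 - (q : R) ^ n) := by
  unfold mu
  have : (n + 1).choose 2 = n.choose 2 + n := by
    rw [Nat.choose_succ_succ' n 1, Nat.choose_one_right, add_comm]
  rw [this, pow_add, pow_succ]; ring

theorem mu_mul_prod (q : ℕ) (R : Type*) [CommRing R] {a b : ℕ} (h : a ≤ b) :
    mu q R a * ∏ i ∈ Finset.Ico a b, ((0 : R) - (q : R) ^ i) = mu q R b := by
  induction b, h using Nat.le_induction with
  | base => simp
  | succ b hb ih => rw [Finset.prod_Ico_succ_top hb, ← mul_assoc, ih, mu_succ]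

variable (F) in
/-- the Moebius function for the field `F` -/
abbrev muF (R : Type*) [CommRing R] (n : ℕ) : R := mu (Fintype.card F) R n

/-- Weisner, infimum version -/
theorem weisner_inf {R : Type*} [CommRing R] {A H B : Submodule F V} (hAH : A ≤ H)
    (hHB : H ≤ B) :
    ∑ C ∈ univ.filter (fun C : Submodule F V => A ≤ C ∧ C ≤ B ∧ C ⊓ H = A),
      muF F R (dm B - dm C) = if H = B then muF F R (dm B - dm A) else 0 := by
  have h1 : dm A ≤ dm H := dm_mono hAH
  have h2 : dm H ≤ dm B := dm_mono hHB
  have key := lemA (F := F) (0 : R) (dm B - dm H) A H B hAH hHB (by omega)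
  have e : ∑ C ∈ univ.filter (fun C : Submodule F V => A ≤ C ∧ C ≤ B ∧ C ⊓ H = A),
      muF F R (dm B - dm C) = muF F R (dm H - dm A) * 0 ^ (dm B - dm H) := by
    rw [← key, Finset.mul_sum]
    apply Finset.sum_congr rfl
    intro C hC
    simp only [mem_filter, mem_univ, true_and] at hC
    have h3 := dm_sup_inf C H
    rw [hC.2.2] at h3
    have h4 : dm (C ⊔ H) ≤ dm B := dm_mono (sup_le hC.2.1 hHB)
    rw [muF, mu_mul_prod _ _ (by omega)]
  rw [e]
  split_ifs with h
  · subst h; simp
  · have h5 : dm H < dm B := dm_lt (lt_of_le_of_ne hHB h)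
    rw [zero_pow (by omega), mul_zero]

/-- Weisner, supremum version -/
theorem weisner_sup {R : Type*} [CommRing R] {A H B : Submodule F V} (hAH : A ≤ H)
    (hHB : H ≤ B) :
    ∑ C ∈ univ.filter (fun C : Submodule F V => A ≤ C ∧ C ≤ B ∧ C ⊔ H = B),
      muF F R (dm C - dm A) = if H = A then muF F R (dm B - dm A) else 0 := by
  have h1 : dm A ≤ dm H := dm_mono hAH
  have h2 : dm H ≤ dm B := dm_mono hHB
  have key := lemA' (F := F) (0 : R) A H B hAH hHB
  have e : ∑ C ∈ univ.filter (fun C : Submodule F V => A ≤ C ∧ C ≤ B ∧ C ⊔ H = B),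
      muF F R (dm C - dm A) = muF F R (dm B - dm H) * 0 ^ (dm H - dm A) := by
    rw [← key, Finset.mul_sum]
    apply Finset.sum_congr rfl
    intro C hC
    simp only [mem_filter, mem_univ, true_and] at hC
    have h3 := dm_sup_inf C H
    rw [hC.2.2] at h3
    have h4 : dm A ≤ dm (C ⊓ H) := dm_mono (le_inf hC.1 hAH)
    rw [muF, mu_mul_prod _ _ (by omega)]
  rw [e]
  split_ifs with h
  · subst h; simp
  · have h5 : dm A < dm H := dm_lt (lt_of_le_of_ne hAH (Ne.symm h))
    rw [zero_pow (by omega), mul_zero]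

/-- sum of the Moebius function over an interval, first variable -/
theorem sum_mu_left {R : Type*} [CommRing R] {A B : Submodule F V} (h : A ≤ B) :
    ∑ C ∈ univ.filter (fun C : Submodule F V => A ≤ C ∧ C ≤ B),
      muF F R (dm B - dm C) = if A = B then 1 else 0 := by
  have key := weisner_inf (F := F) (R := R) (le_refl A) h
  have e : univ.filter (fun C : Submodule F V => A ≤ C ∧ C ≤ B ∧ C ⊓ A = A)
      = univ.filter (fun C : Submodule F V => A ≤ C ∧ C ≤ B) := by
    ext C
    simp only [mem_filter, mem_univ, true_and]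
    constructor
    · rintro ⟨h1, h2, _⟩; exact ⟨h1, h2⟩
    · rintro ⟨h1, h2⟩; exact ⟨h1, h2, inf_eq_right.2 h1⟩
  rw [e] at key
  rw [key]
  split_ifs with h1
  · subst h1; simp [muF, mu_zero]
  · rfl

/-- sum of the Moebius function over an interval, second variable -/
theorem sum_mu_right {R : Type*} [CommRing R] {A B : Submodule F V} (h : A ≤ B) :
    ∑ C ∈ univ.filter (fun C : Submodule F V => A ≤ C ∧ C ≤ B),
      muF F R (dm C - dm A) = if A = B then 1 else 0 := by
  have key := weisner_sup (F := F) (R := R) h (le_refl B)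
  have e : univ.filter (fun C : Submodule F V => A ≤ C ∧ C ≤ B ∧ C ⊔ B = B)
      = univ.filter (fun C : Submodule F V => A ≤ C ∧ C ≤ B) := by
    ext C
    simp only [mem_filter, mem_univ, true_and]
    constructor
    · rintro ⟨h1, h2, _⟩; exact ⟨h1, h2⟩
    · rintro ⟨h1, h2⟩; exact ⟨h1, h2, sup_eq_right.2 h2⟩
  rw [e] at key
  rw [key]
  by_cases h1 : A = B
  · subst h1; simp [muF, mu_zero]
  · rw [if_neg h1, if_neg (Ne.symm h1)]

end

end Pool.Agent.W35.Sub3
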