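import Mathlib
import Pool.Agent.W35.Sub3.LemA

/-!
Two counting identities for a linear operator on a finite vector space.
-/

namespace Pool.Agent.W35.Sub3

open Module Finset Classical

noncomputable section

variable {F : Type*} [Field F] [Fintype F] {V : Type*} [AddCommGroup V] [Module F V]
  [Module.Finite F V]

/-- **K0**: operator identity on an interval of stable subspaces. -/
theorem K0 {R : Type*} [CommRing R] (z : R) (T : V →ₗ[F] V) {A B : Submodule F V}
    (hA : A ≤ A.comap T) (hB : B ≤ B.comap T) :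
    ∑ Y ∈ univ.filter (fun Y : Submodule F V => A ≤ Y ∧ Y ≤ B ∧ Y ⊓ Y.comap T = A),
      z ^ (dm Y - dm A) *
        ∏ i ∈ Finset.Ico (dm Y - dm A) (dm B - dm Y), (z - (Fintype.card F : R) ^ i)
    = ∑ Z ∈ univ.filter (fun Z : Submodule F V => A ≤ Z ∧ Z ≤ B ∧ Z ≤ Z.comap T),
      muF F R (dm Z - dm A) * z ^ (dm B - dm Z) := by
  set g : Submodule F V → Submodule F V → R := fun C Y => z ^ (dm C - dm A) *
        ∏ i ∈ Finset.Ico (dm C - dm A) (dm B - dm Y), (z - (Fintype.card F : R) ^ i) with hg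
  -- triple sum
  have step1 : ∑ Y ∈ univ.filter (fun Y : Submodule F V => A ≤ Y ∧ Y ≤ B ∧ Y ⊓ Y.comap T = A),
      g Y Y = ∑ Y : Submodule F V, ∑ C : Submodule F V, ∑ C' : Submodule F V,
        if A ≤ C ∧ C ≤ C' ∧ C' ≤ Y ∧ Y ≤ B ∧ C ⊓ Y.comap T = A
          then muF F R (dm C' - dm C) * g C Y else 0 := by
    rw [Finset.sum_filter]
    apply Finset.sum_congr rfl
    intro Y _
    have hC : ∀ C : Submodule F V, (∑ C' : Submodule F V,
        if A ≤ C ∧ C ≤ C' ∧ C' ≤ Y ∧ Y ≤ B ∧ C ⊓ Y.comap T = A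
          then muF F R (dm C' - dm C) * g C Y else 0)
        = if C = Y then (if A ≤ Y ∧ Y ≤ B ∧ Y ⊓ Y.comap T = A then g Y Y else 0) else 0 := by
      intro C
      by_cases hc : A ≤ C ∧ C ≤ Y ∧ Y ≤ B ∧ C ⊓ Y.comap T = A
      · obtain ⟨h1, h2, h3, h4⟩ := hc
        have e1 : (∑ C' : Submodule F V,
            if A ≤ C ∧ C ≤ C' ∧ C' ≤ Y ∧ Y ≤ B ∧ C ⊓ Y.comap T = A
              then muF F R (dm C' - dm C) * g C Y else 0)
            = (∑ C' ∈ univ.filter (fun C' : Submodule F V => C ≤ C' ∧ C' ≤ Y),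
                muF F R (dm C' - dm C)) * g C Y := by
          rw [Finset.sum_mul, Finset.sum_filter]
          apply Finset.sum_congr rfl
          intro C' _
          by_cases h5 : C ≤ C' ∧ C' ≤ Y
          · rw [if_pos ⟨h1, h5.1, h5.2, h3, h4⟩, if_pos h5]
          · rw [if_neg (fun h => h5 ⟨h.2.1, h.2.2.1⟩), if_neg h5]
        rw [e1, sum_mu_right h2]
        by_cases h5 : C = Y
        · subst h5
          rw [if_pos rfl, if_pos rfl, if_pos ⟨h1, h3, h4⟩, one_mul]
        · rw [if_neg h5, if_neg h5, zero_mul]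
      · have e1 : (∑ C' : Submodule F V,
            if A ≤ C ∧ C ≤ C' ∧ C' ≤ Y ∧ Y ≤ B ∧ C ⊓ Y.comap T = A
              then muF F R (dm C' - dm C) * g C Y else 0) = 0 := by
          apply Finset.sum_eq_zero
          intro C' _
          rw [if_neg]
          rintro ⟨h1, h2, h3, h4, h5⟩
          exact hc ⟨h1, h2.trans h3, h4, h5⟩
        rw [e1]
        by_cases h5 : C = Y
        · subst h5
          rw [if_pos rfl, if_neg]
          rintro ⟨h1, h3, h4⟩
          exact hc ⟨h1, le_rfl, h3, h4⟩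
        · rw [if_neg h5]
    rw [Finset.sum_congr rfl (fun C _ => hC C), Finset.sum_ite_eq' univ Y, if_pos (mem_univ _)]
  -- inner sum over Y
  have step2 : ∀ C C' : Submodule F V, (∑ Y : Submodule F V,
        if A ≤ C ∧ C ≤ C' ∧ C' ≤ Y ∧ Y ≤ B ∧ C ⊓ Y.comap T = A
          then muF F R (dm C' - dm C) * g C Y else 0)
      = if A ≤ C ∧ C ≤ C' ∧ C' ≤ B ∧ C ⊓ C'.comap T = A
          then muF F R (dm C' - dm C) * z ^ (dm B - dm C') else 0 := by
    intro C C'
    by_cases hc : A ≤ C ∧ C ≤ C' ∧ C' ≤ B ∧ C ⊓ C'.comap T = A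
    · obtain ⟨h1, h2, h3, h4⟩ := hc
      rw [if_pos ⟨h1, h2, h3, h4⟩]
      set D := C' ⊔ C.map T with hD
      have hdD : dm D + dm (C ⊓ C'.comap T) = dm C' + dm C := dm_sup_map T C' C
      rw [h4] at hdD
      have hDB : D ≤ B := by
        refine sup_le h3 ?_
        rw [Submodule.map_le_iff_le_comap]
        exact (h2.trans h3).trans hB
      have hC'D : C' ≤ D := le_sup_left
      have key := lemA (F := F) z (dm B - dm D) C' D B hC'D hDB
        (by have := dm_mono hDB; omega)
      have hdAC : dm A ≤ dm C := dm_mono h1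
      have hdDB : dm D ≤ dm B := dm_mono hDB
      have e1 : ∀ Y : Submodule F V, (if A ≤ C ∧ C ≤ C' ∧ C' ≤ Y ∧ Y ≤ B ∧ C ⊓ Y.comap T = A
          then muF F R (dm C' - dm C) * g C Y else 0)
          = (if C' ≤ Y ∧ Y ≤ B ∧ Y ⊓ D = C' then muF F R (dm C' - dm C) * g C Y else 0) := by
        intro Y
        have hiff : (A ≤ C ∧ C ≤ C' ∧ C' ≤ Y ∧ Y ≤ B ∧ C ⊓ Y.comap T = A) ↔
            (C' ≤ Y ∧ Y ≤ B ∧ Y ⊓ D = C') := by
          constructor
          · rintro ⟨_, _, h5, h6, h7⟩
            refine ⟨h5, h6, le_antisymm ?_ (le_inf h5 hC'D)⟩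
            rintro x ⟨hx1, hx2⟩
            obtain ⟨c', hc', t, ht, rfl⟩ := Submodule.mem_sup.1 hx2
            obtain ⟨c, hc, rfl⟩ := Submodule.mem_map.1 ht
            have h8 : T c ∈ Y := by
              have := Y.sub_mem hx1 (h5 hc')
              simpa using this
            have h9 : c ∈ A := by rw [← h7]; exact ⟨hc, h8⟩
            exact C'.add_mem hc' (h2 (h1 (hA h9)))
          · rintro ⟨h5, h6, h7⟩
            refine ⟨h1, h2, h5, h6, le_antisymm ?_ (le_inf h1 ?_)⟩
            · rintro c ⟨hc1, hc2⟩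
              have h8 : T c ∈ C' := by
                rw [← h7]
                exact ⟨hc2, Submodule.mem_sup_right (Submodule.mem_map_of_mem hc1)⟩
              rw [← h4]; exact ⟨hc1, h8⟩
            · intro a ha
              exact h5 (h2 (h1 (hA ha)))
        by_cases h5 : (C' ≤ Y ∧ Y ≤ B ∧ Y ⊓ D = C')
        · rw [if_pos h5, if_pos (hiff.2 h5)]
        · rw [if_neg h5, if_neg (fun h => h5 (hiff.1 h))]
      rw [Finset.sum_congr rfl (fun Y _ => e1 Y), ← Finset.sum_filter]
      rw [show dm D - dm C' = dm C - dm A by omega] at key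
      have e2 : ∀ Y ∈ univ.filter (fun Y : Submodule F V => C' ≤ Y ∧ Y ≤ B ∧ Y ⊓ D = C'),
          muF F R (dm C' - dm C) * g C Y = (muF F R (dm C' - dm C) * z ^ (dm C - dm A)) *
            ∏ i ∈ Finset.Ico (dm C - dm A) (dm B - dm Y), (z - (Fintype.card F : R) ^ i) := by
        intro Y _
        rw [hg]; ring
      rw [Finset.sum_congr rfl e2, ← Finset.mul_sum, key, mul_assoc, ← pow_add]
      congr 2
      omega
    · rw [if_neg hc]
      apply Finset.sum_eq_zero
      intro Y _
      rw [if_neg]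
      rintro ⟨h1, h2, h3, h4, h5⟩
      refine hc ⟨h1, h2, h3.trans h4, le_antisymm ?_ (le_inf h1 ?_)⟩
      · rw [← h5]
        exact inf_le_inf_left _ (Submodule.comap_mono h3)
      · intro a ha
        exact h2 (h1 (hA ha))
  -- sum over C
  have step3 : ∀ C' : Submodule F V, (∑ C : Submodule F V,
      if A ≤ C ∧ C ≤ C' ∧ C' ≤ B ∧ C ⊓ C'.comap T = A
          then muF F R (dm C' - dm C) * z ^ (dm B - dm C') else 0)
      = if A ≤ C' ∧ C' ≤ B ∧ C' ≤ C'.comap T then muF F R (dm C' - dm A) * z ^ (dm B - dm C')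
        else 0 := by
    intro C'
    by_cases hc : A ≤ C' ∧ C' ≤ B
    · obtain ⟨h1, h2⟩ := hc
      set H := C' ⊓ C'.comap T with hH
      have hAH : A ≤ H := le_inf h1 (fun a ha => h1 (hA ha))
      have key := weisner_inf (F := F) (R := R) hAH (inf_le_left : H ≤ C')
      have e1 : ∀ C : Submodule F V, (if A ≤ C ∧ C ≤ C' ∧ C' ≤ B ∧ C ⊓ C'.comap T = A
          then muF F R (dm C' - dm C) * z ^ (dm B - dm C') else 0)
          = (if A ≤ C ∧ C ≤ C' ∧ C ⊓ H = A then muF F R (dm C' - dm C) else 0)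
            * z ^ (dm B - dm C') := by
        intro C
        have hiff : (A ≤ C ∧ C ≤ C' ∧ C' ≤ B ∧ C ⊓ C'.comap T = A) ↔
            (A ≤ C ∧ C ≤ C' ∧ C ⊓ H = A) := by
          constructor
          · rintro ⟨h3, h4, _, h5⟩
            refine ⟨h3, h4, ?_⟩
            rw [hH, ← inf_assoc, inf_eq_left.2 h4, h5]
          · rintro ⟨h3, h4, h5⟩
            refine ⟨h3, h4, h2, ?_⟩
            rw [hH, ← inf_assoc, inf_eq_left.2 h4] at h5
            exact h5
        by_cases h5 : (A ≤ C ∧ C ≤ C' ∧ C ⊓ H = A)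
        · rw [if_pos h5, if_pos (hiff.2 h5)]
        · rw [if_neg h5, if_neg (fun h => h5 (hiff.1 h)), zero_mul]
      rw [Finset.sum_congr rfl (fun Y _ => e1 Y), ← Finset.sum_mul, ← Finset.sum_filter, key]
      by_cases h5 : C' ≤ C'.comap T
      · have : H = C' := inf_eq_left.2 h5
        rw [if_pos this, if_pos ⟨h1, h2, h5⟩]
      · have : H ≠ C' := fun h => h5 (inf_eq_left.1 h)
        rw [if_neg this, zero_mul, if_neg (fun h => h5 h.2.2)]
    · rw [if_neg (fun h => hc ⟨h.1, h.2.1⟩)]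
      apply Finset.sum_eq_zero
      intro C _
      rw [if_neg]
      rintro ⟨h1, h2, h3, _⟩
      exact hc ⟨h1.trans h2, h3⟩
  change ∑ Y ∈ univ.filter (fun Y : Submodule F V => A ≤ Y ∧ Y ≤ B ∧ Y ⊓ Y.comap T = A),
      g Y Y = _
  rw [step1]
  have swap1 : (∑ Y : Submodule F V, ∑ C : Submodule F V, ∑ C' : Submodule F V,
        if A ≤ C ∧ C ≤ C' ∧ C' ≤ Y ∧ Y ≤ B ∧ C ⊓ Y.comap T = A
          then muF F R (dm C' - dm C) * g C Y else 0)
      = ∑ C' : Submodule F V, ∑ C : Submodule F V, ∑ Y : Submodule F V,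
        if A ≤ C ∧ C ≤ C' ∧ C' ≤ Y ∧ Y ≤ B ∧ C ⊓ Y.comap T = A
          then muF F R (dm C' - dm C) * g C Y else 0 := by
    rw [Finset.sum_congr rfl (fun Y _ => Finset.sum_comm), Finset.sum_comm]
    apply Finset.sum_congr rfl
    intro C' _
    rw [Finset.sum_comm]
  rw [swap1, Finset.sum_congr rfl (fun C' _ => Finset.sum_congr rfl (fun C _ => step2 C C')),
    Finset.sum_congr rfl (fun C' _ => step3 C'), ← Finset.sum_filter]

/-- **KB**: operator identity for a Galois connection. -/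
theorem KB {R : Type*} [CommRing R] (z : R) (τ : V →ₗ[F] V)
    (α δ : Submodule F V → Submodule F V) (gc : ∀ X C, α X ≤ C ↔ X ≤ δ C) :
    ∑ X ∈ univ.filter (fun X : Submodule F V => α X ⊔ X.map τ = ⊤),
      z ^ (finrank F V - dm (α X)) *
        ∏ i ∈ Finset.Ico (finrank F V - dm (α X)) (dm X), (z - (Fintype.card F : R) ^ i)
    = ∑ C ∈ univ.filter (fun C : Submodule F V => (δ C).map τ ≤ C),
      muF F R (finrank F V - dm C) * z ^ (dm (δ C)) := by
  set n := finrank F V with hn
  have hle : ∀ W : Submodule F V, dm W ≤ n := fun W => by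
    rw [hn, ← dm_top (F := F) (V := V)]; exact dm_mono le_top
  set g : Submodule F V → Submodule F V → R := fun C X => z ^ (n - dm C) *
        ∏ i ∈ Finset.Ico (n - dm C) (dm X), (z - (Fintype.card F : R) ^ i) with hg
  have step1 : ∑ X ∈ univ.filter (fun X : Submodule F V => α X ⊔ X.map τ = ⊤), g (α X) X
      = ∑ X : Submodule F V, ∑ C : Submodule F V, ∑ C' : Submodule F V,
        if X ≤ δ C' ∧ C' ≤ C ∧ C ⊔ X.map τ = ⊤
          then muF F R (dm C - dm C') * g C X else 0 := by
    rw [Finset.sum_filter]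
    apply Finset.sum_congr rfl
    intro X _
    have hC : ∀ C : Submodule F V, (∑ C' : Submodule F V,
        if X ≤ δ C' ∧ C' ≤ C ∧ C ⊔ X.map τ = ⊤
          then muF F R (dm C - dm C') * g C X else 0)
        = if α X = C then (if α X ⊔ X.map τ = ⊤ then g (α X) X else 0) else 0 := by
      intro C
      by_cases hc : α X ≤ C ∧ C ⊔ X.map τ = ⊤
      · obtain ⟨h1, h2⟩ := hc
        have e1 : (∑ C' : Submodule F V,
            if X ≤ δ C' ∧ C' ≤ C ∧ C ⊔ X.map τ = ⊤
              then muF F R (dm C - dm C') * g C X else 0)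
            = (∑ C' ∈ univ.filter (fun C' : Submodule F V => α X ≤ C' ∧ C' ≤ C),
                muF F R (dm C - dm C')) * g C X := by
          rw [Finset.sum_mul, Finset.sum_filter]
          apply Finset.sum_congr rfl
          intro C' _
          by_cases h5 : α X ≤ C' ∧ C' ≤ C
          · rw [if_pos ⟨(gc _ _).1 h5.1, h5.2, h2⟩, if_pos h5]
          · rw [if_neg (fun h => h5 ⟨(gc _ _).2 h.1, h.2.1⟩), if_neg h5]
        rw [e1, sum_mu_left h1]
        by_cases h5 : α X = C
        · subst h5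
          rw [if_pos rfl, if_pos rfl, if_pos h2, one_mul]
        · rw [if_neg h5, if_neg h5, zero_mul]
      · have e1 : (∑ C' : Submodule F V,
            if X ≤ δ C' ∧ C' ≤ C ∧ C ⊔ X.map τ = ⊤
              then muF F R (dm C - dm C') * g C X else 0) = 0 := by
          apply Finset.sum_eq_zero
          intro C' _
          rw [if_neg]
          rintro ⟨h1, h2, h3⟩
          exact hc ⟨((gc _ _).2 h1).trans h2, h3⟩
        rw [e1]
        by_cases h5 : α X = C
        · subst h5
          rw [if_pos rfl, if_neg]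
          intro h4
          exact hc ⟨le_rfl, h4⟩
        · rw [if_neg h5]
    rw [Finset.sum_congr rfl (fun C _ => hC C), Finset.sum_ite_eq univ (α X),
      if_pos (mem_univ _)]
  have step2 : ∀ C C' : Submodule F V, (∑ X : Submodule F V,
        if X ≤ δ C' ∧ C' ≤ C ∧ C ⊔ X.map τ = ⊤
          then muF F R (dm C - dm C') * g C X else 0)
      = if C' ≤ C ∧ C ⊔ (δ C').map τ = ⊤
          then muF F R (dm C - dm C') * z ^ (dm (δ C')) else 0 := by
    intro C C'
    by_cases hc : C' ≤ C ∧ C ⊔ (δ C').map τ = ⊤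
    · obtain ⟨h1, h2⟩ := hc
      rw [if_pos ⟨h1, h2⟩]
      set P := δ C' with hP
      set D := P ⊓ C.comap τ with hD
      have hdD : dm (C ⊔ P.map τ) + dm D = dm C + dm P := dm_sup_map τ C P
      rw [h2, dm_top, ← hn] at hdD
      have hDP : D ≤ P := inf_le_left
      have key := lemA' (F := F) z ⊥ D P bot_le hDP
      have hC := hle C
      have e1 : ∀ X : Submodule F V, (if X ≤ P ∧ C' ≤ C ∧ C ⊔ X.map τ = ⊤
          then muF F R (dm C - dm C') * g C X else 0)
          = (if ⊥ ≤ X ∧ X ≤ P ∧ X ⊔ D = P then muF F R (dm C - dm C') * g C X else 0) := by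
        intro X
        have hiff : (X ≤ P ∧ C' ≤ C ∧ C ⊔ X.map τ = ⊤) ↔ (⊥ ≤ X ∧ X ≤ P ∧ X ⊔ D = P) := by
          constructor
          · rintro ⟨h3, _, h4⟩
            refine ⟨bot_le, h3, le_antisymm (sup_le h3 hDP) ?_⟩
            intro p hp
            have h5 : τ p ∈ C ⊔ X.map τ := by rw [h4]; trivial
            obtain ⟨c, hc, t, ht, h6⟩ := Submodule.mem_sup.1 h5
            obtain ⟨x, hx, rfl⟩ := Submodule.mem_map.1 ht
            have h7 : p - x ∈ D := by
              refine ⟨P.sub_mem hp (h3 hx), ?_⟩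
              change τ (p - x) ∈ C
              rw [map_sub, ← h6, add_sub_cancel_right]
              exact hc
            have h8 : p = x + (p - x) := by abel
            rw [h8]
            exact Submodule.add_mem_sup hx h7
          · rintro ⟨_, h3, h4⟩
            refine ⟨h3, h1, ?_⟩
            rw [eq_top_iff, ← h2]
            refine sup_le le_sup_left ?_
            rw [← h4, Submodule.map_sup]
            refine sup_le le_sup_right ?_
            refine le_trans ?_ le_sup_left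
            rw [Submodule.map_le_iff_le_comap]
            exact inf_le_right
        by_cases h5 : (⊥ ≤ X ∧ X ≤ P ∧ X ⊔ D = P)
        · rw [if_pos h5, if_pos (hiff.2 h5)]
        · rw [if_neg h5, if_neg (fun h => h5 (hiff.1 h))]
      rw [Finset.sum_congr rfl (fun Y _ => e1 Y), ← Finset.sum_filter]
      rw [dm_bot, Nat.sub_zero] at key
      have hdC : dm D ≤ dm P := dm_mono hDP
      rw [show dm P - dm D = n - dm C by omega] at key
      have e2 : ∀ X ∈ univ.filter (fun X : Submodule F V => ⊥ ≤ X ∧ X ≤ P ∧ X ⊔ D = P),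
          muF F R (dm C - dm C') * g C X = (muF F R (dm C - dm C') * z ^ (n - dm C)) *
            ∏ i ∈ Finset.Ico (n - dm C) (dm X - 0), (z - (Fintype.card F : R) ^ i) := by
        intro Y _
        rw [hg, Nat.sub_zero]; ring
      rw [Finset.sum_congr rfl e2, ← Finset.mul_sum, key, mul_assoc, ← pow_add]
      congr 2
      omega
    · rw [if_neg hc]
      apply Finset.sum_eq_zero
      intro X _
      rw [if_neg]
      rintro ⟨h1, h2, h3⟩
      refine hc ⟨h2, ?_⟩
      rw [eq_top_iff, ← h3]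
      exact sup_le_sup_left (Submodule.map_mono h1) _
  have step3 : ∀ C' : Submodule F V, (∑ C : Submodule F V,
      if C' ≤ C ∧ C ⊔ (δ C').map τ = ⊤
          then muF F R (dm C - dm C') * z ^ (dm (δ C')) else 0)
      = if (δ C').map τ ≤ C' then muF F R (n - dm C') * z ^ (dm (δ C')) else 0 := by
    intro C'
    set H := C' ⊔ (δ C').map τ with hH
    have key := weisner_sup (F := F) (R := R) (le_sup_left : C' ≤ H) (le_top : H ≤ ⊤)
    have e1 : ∀ C : Submodule F V, (if C' ≤ C ∧ C ⊔ (δ C').map τ = ⊤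
          then muF F R (dm C - dm C') * z ^ (dm (δ C')) else 0)
          = (if C' ≤ C ∧ C ≤ ⊤ ∧ C ⊔ H = ⊤ then muF F R (dm C - dm C') else 0)
            * z ^ (dm (δ C')) := by
      intro C
      have hiff : (C' ≤ C ∧ C ⊔ (δ C').map τ = ⊤) ↔ (C' ≤ C ∧ C ≤ ⊤ ∧ C ⊔ H = ⊤) := by
        constructor
        · rintro ⟨h3, h4⟩
          refine ⟨h3, le_top, ?_⟩
          rw [hH, ← sup_assoc, sup_eq_left.2 h3, h4]
        · rintro ⟨h3, _, h5⟩
          refine ⟨h3, ?_⟩
          rw [hH, ← sup_assoc, sup_eq_left.2 h3] at h5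
          exact h5
      by_cases h5 : (C' ≤ C ∧ C ≤ ⊤ ∧ C ⊔ H = ⊤)
      · rw [if_pos h5, if_pos (hiff.2 h5)]
      · rw [if_neg h5, if_neg (fun h => h5 (hiff.1 h)), zero_mul]
    rw [Finset.sum_congr rfl (fun Y _ => e1 Y), ← Finset.sum_mul, ← Finset.sum_filter, key]
    by_cases h5 : (δ C').map τ ≤ C'
    · have : H = C' := sup_eq_left.2 h5
      rw [if_pos this, if_pos h5, dm_top]
    · have : H ≠ C' := fun h => h5 (sup_eq_left.1 h)
      rw [if_neg this, zero_mul, if_neg h5]
  change ∑ X ∈ univ.filter (fun X : Submodule F V => α X ⊔ X.map τ = ⊤), g (α X) X = _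
  rw [step1]
  have swap1 : (∑ X : Submodule F V, ∑ C : Submodule F V, ∑ C' : Submodule F V,
        if X ≤ δ C' ∧ C' ≤ C ∧ C ⊔ X.map τ = ⊤
          then muF F R (dm C - dm C') * g C X else 0)
      = ∑ C' : Submodule F V, ∑ C : Submodule F V, ∑ X : Submodule F V,
        if X ≤ δ C' ∧ C' ≤ C ∧ C ⊔ X.map τ = ⊤
          then muF F R (dm C - dm C') * g C X else 0 := by
    rw [Finset.sum_congr rfl (fun Y _ => Finset.sum_comm), Finset.sum_comm]
    apply Finset.sum_congr rfl
    intro C' _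
    rw [Finset.sum_comm]
  rw [swap1, Finset.sum_congr rfl (fun C' _ => Finset.sum_congr rfl (fun C _ => step2 C C')),
    Finset.sum_congr rfl (fun C' _ => step3 C'), ← Finset.sum_filter]

end

end Pool.Agent.W35.Sub3
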