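import Mathlib

/-!
Gaussian binomial coefficients and a cubic theta type identity.
-/

namespace Pool.Agent.W35.Sub3

open Finset

noncomputable section

/-- Gaussian binomial coefficients at a real number -/
def gb (Q : ℝ) : ℕ → ℕ → ℝ
  | 0, 0 => 1
  | 0, (_ + 1) => 0
  | (_ + 1), 0 => 1
  | (n + 1), (k + 1) => Q ^ (k + 1) * gb Q n (k + 1) + gb Q n k

theorem gb_zero (Q : ℝ) (n : ℕ) : gb Q n 0 = 1 := by cases n <;> rfl

theorem gb_succ (Q : ℝ) (n k : ℕ) :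
    gb Q (n + 1) (k + 1) = Q ^ (k + 1) * gb Q n (k + 1) + gb Q n k := rfl

theorem gb_gt (Q : ℝ) (n : ℕ) : ∀ k, n < k → gb Q n k = 0 := by
  induction n with
  | zero =>
    intro k hk
    obtain ⟨j, rfl⟩ : ∃ j, k = j + 1 := ⟨k - 1, by omega⟩
    rfl
  | succ n ih =>
    intro k hk
    obtain ⟨j, rfl⟩ : ∃ j, k = j + 1 := ⟨k - 1, by omega⟩
    rw [gb_succ, ih _ (by omega), ih _ (by omega)]
    ring

theorem gb_self (Q : ℝ) (n : ℕ) : gb Q n n = 1 := by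
  induction n with
  | zero => rfl
  | succ n ih => rw [gb_succ, gb_gt Q n _ (by omega), ih]; ring

theorem gb_succ' (Q : ℝ) (n : ℕ) : ∀ k, k ≤ n →
    gb Q (n + 1) (k + 1) = gb Q n (k + 1) + Q ^ (n - k) * gb Q n k := by
  induction n with
  | zero =>
    intro k hk
    obtain rfl : k = 0 := by omega
    rw [gb_succ, gb_gt Q 0 1 (by omega)]
    simp
  | succ n ih =>
    intro k hk
    rcases Nat.eq_or_lt_of_le hk with h | h
    · subst h
      rw [gb_self, gb_gt Q (n + 1) _ (by omega), Nat.sub_self, gb_self]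
      ring
    · cases k with
      | zero =>
        have h1 := ih 0 (by omega)
        rw [Nat.sub_zero, gb_zero, mul_one] at h1
        have h2 := gb_succ Q n 0
        rw [gb_zero] at h2
        rw [gb_succ, gb_zero, Nat.sub_zero]
        have h3 : gb Q n (0 + 1) = gb Q (n + 1) (0 + 1) - Q ^ n := by rw [h1]; ring
        rw [h3] at h2
        rw [pow_succ Q n]
        linear_combination -h2
      | succ k =>
        have hA := ih (k + 1) (by omega)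
        have hB := ih k (by omega)
        have hC := gb_succ Q n (k + 1)
        have hD := gb_succ Q n k
        have e1 : n + 1 - (k + 1) = n - k := by omega
        obtain ⟨r, hr⟩ : ∃ r, n - k = r + 1 := ⟨n - k - 1, by omega⟩
        have e2 : n - (k + 1) = r := by omega
        rw [e1, hr]
        rw [hr] at hB
        rw [e2] at hA
        rw [gb_succ Q (n + 1) (k + 1)]
        set G0 := gb Q n k
        set G1 := gb Q n (k + 1)
        set G2 := gb Q n (k + 1 + 1)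
        rw [hB, hA]
        have hA' : gb Q (n + 1) (k + 1 + 1) = G2 + Q ^ r * G1 := hA
        have e3 : G2 + Q ^ r * G1 = Q ^ (k + 1 + 1) * G2 + G1 := by rw [← hA', hC]
        have e4 : G1 + Q ^ (r + 1) * G0 = Q ^ (k + 1) * G1 + G0 := by rw [← hB, hD]
        rw [e4]
        have e5 : Q ^ (k + 1 + 1) * (G2 + Q ^ r * G1) + (Q ^ (k + 1) * G1 + G0)
            = (G2 + Q ^ r * G1) + Q ^ (r + 1) * (Q ^ (k + 1) * G1 + G0) := by
          have e6 : Q ^ (k + 1 + 1) * (Q ^ r * G1) = Q ^ (r + 1) * (Q ^ (k + 1) * G1) := by ring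
          linear_combination e6 - e3 - e4
        exact e5

theorem gb_symm (Q : ℝ) (n : ℕ) : ∀ k, k ≤ n → gb Q n (n - k) = gb Q n k := by
  induction n with
  | zero =>
    intro k hk
    obtain rfl : k = 0 := by omega
    rfl
  | succ n ih =>
    intro k hk
    cases k with
    | zero => rw [Nat.sub_zero, gb_self, gb_zero]
    | succ k =>
      rcases Nat.eq_or_lt_of_le hk with h | h
      · rw [h, Nat.sub_self, gb_self, gb_zero]
      · obtain ⟨j, hj⟩ : ∃ j, n + 1 - (k + 1) = j + 1 := ⟨n - k - 1, by omega⟩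
        rw [hj, gb_succ' Q n j (by omega), gb_succ]
        rw [← ih (k + 1) (by omega), ← ih k (by omega)]
        rw [show n - (k + 1) = j by omega, show n - k = j + 1 by omega,
          show n - j = k + 1 by omega]
        ring

/-! ### the cubic theta type sum -/

/-- the cubic character times a power -/
def ph (p : ℝ) (x : ℤ) : ℝ :=
  if x % 3 = 1 then p ^ ((x ^ 2 - 1) / 3) else if x % 3 = 2 then - p ^ ((x ^ 2 - 1) / 3) else 0

theorem ph_neg (p : ℝ) (x : ℤ) : ph p (-x) = - ph p x := by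
  unfold ph
  have h : x % 3 = 0 ∨ x % 3 = 1 ∨ x % 3 = 2 := by omega
  rw [neg_sq]
  rcases h with h | h | h
  · have h1 : (-x) % 3 = 0 := by omega
    rw [h, h1]; simp
  · have h1 : (-x) % 3 = 2 := by omega
    rw [h, h1]; simp
  · have h1 : (-x) % 3 = 1 := by omega
    rw [h, h1]; simp

theorem ph_add (p : ℝ) (hp : p ≠ 0) (y : ℤ) : ph p (y + 3) = p ^ (2 * y + 3) * ph p y := by
  unfold ph
  have e1 : (y + 3) % 3 = y % 3 := by omega
  have e2 : ((y + 3) ^ 2 - 1) / 3 = (2 * y + 3) + (y ^ 2 - 1) / 3 := by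
    have : (y + 3) ^ 2 - 1 = (y ^ 2 - 1) + 3 * (2 * y + 3) := by ring
    rw [this, Int.add_mul_ediv_left _ _ (by norm_num)]
    ring
  rw [e1, e2, zpow_add₀ hp]
  split_ifs
  · ring
  · ring
  · ring

/-- the theta type sum -/
def TT (p : ℝ) (N : ℕ) : ℝ :=
  ∑ k ∈ range (N + 1), gb (p ^ 4) N k * ph p ((N : ℤ) + 1 - 2 * k)

theorem sum_antisymm (p : ℝ) (N : ℕ) :
    ∑ k ∈ range (N + 1), gb (p ^ 4) N k * ph p ((N : ℤ) - 2 * k) = 0 := by
  have h := Finset.sum_range_reflect (fun k => gb (p ^ 4) N k * ph p ((N : ℤ) - 2 * k)) (N + 1)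
  have h2 : ∑ j ∈ range (N + 1), gb (p ^ 4) N (N + 1 - 1 - j)
      * ph p ((N : ℤ) - 2 * ((N + 1 - 1 - j : ℕ) : ℤ))
      = ∑ j ∈ range (N + 1), - (gb (p ^ 4) N j * ph p ((N : ℤ) - 2 * j)) := by
    apply Finset.sum_congr rfl
    intro k hk
    have hk' : k ≤ N := by simpa [Nat.lt_succ_iff] using hk
    rw [Nat.add_sub_cancel, gb_symm _ _ _ hk', Nat.cast_sub hk',
      show (N : ℤ) - 2 * ((N : ℤ) - (k : ℤ)) = -((N : ℤ) - 2 * k) by ring, ph_neg]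
    ring
  rw [h2, Finset.sum_neg_distrib] at h
  linarith

theorem TT_succ (p : ℝ) (hp : p ≠ 0) (N : ℕ) : TT p (N + 1) = - p ^ (2 * N + 1) * TT p N := by
  unfold TT
  have e1 : ∑ k ∈ range (N + 1 + 1), gb (p ^ 4) (N + 1) k * ph p (((N + 1 : ℕ) : ℤ) + 1 - 2 * k)
      = (∑ k ∈ range (N + 1 + 1), (p ^ 4) ^ k * gb (p ^ 4) N k * ph p ((N : ℤ) + 2 - 2 * k))
        + ∑ k ∈ range (N + 1), gb (p ^ 4) N k * ph p ((N : ℤ) - 2 * k) := by
    rw [Finset.sum_range_succ' _ (N + 1), Finset.sum_range_succ' _ (N + 1)]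
    have e2 : ∀ k ∈ range (N + 1), gb (p ^ 4) (N + 1) (k + 1)
        * ph p (((N + 1 : ℕ) : ℤ) + 1 - 2 * ((k + 1 : ℕ) : ℤ))
        = (p ^ 4) ^ (k + 1) * gb (p ^ 4) N (k + 1) * ph p ((N : ℤ) + 2 - 2 * ((k + 1 : ℕ) : ℤ))
          + gb (p ^ 4) N k * ph p ((N : ℤ) - 2 * k) := by
      intro k _
      rw [gb_succ]
      have e3 : (((N + 1 : ℕ) : ℤ) + 1 - 2 * ((k + 1 : ℕ) : ℤ)) = (N : ℤ) - 2 * k := by
        push_cast; ring
      have e4 : ((N : ℤ) + 2 - 2 * ((k + 1 : ℕ) : ℤ)) = (N : ℤ) - 2 * k := by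
        push_cast; ring
      rw [e3, e4]; ring
    rw [Finset.sum_congr rfl e2, Finset.sum_add_distrib, gb_zero, gb_zero]
    have e5 : (((N + 1 : ℕ) : ℤ) + 1 - 2 * ((0 : ℕ) : ℤ)) = (N : ℤ) + 2 - 2 * ((0 : ℕ) : ℤ) := by
      push_cast; ring
    rw [e5]
    ring
  rw [e1, sum_antisymm, add_zero, Finset.sum_range_succ, gb_gt _ N (N + 1) (by omega)]
  have e6 : ∀ k ∈ range (N + 1), (p ^ 4) ^ k * gb (p ^ 4) N k * ph p ((N : ℤ) + 2 - 2 * k)
      = p ^ (2 * N + 1) * (gb (p ^ 4) N k * ph p ((N : ℤ) - 1 - 2 * k)) := by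
    intro k _
    have e7 : ((N : ℤ) + 2 - 2 * k) = ((N : ℤ) - 1 - 2 * k) + 3 := by ring
    rw [e7, ph_add p hp]
    have e8 : (p ^ 4) ^ k * p ^ (2 * ((N : ℤ) - 1 - 2 * k) + 3) = p ^ (2 * N + 1) := by
      rw [← pow_mul, ← zpow_natCast p (4 * k), ← zpow_add₀ hp, ← zpow_natCast p (2 * N + 1)]
      congr 1
      push_cast; ring
    rw [← e8]; ring
  rw [Finset.sum_congr rfl e6, ← Finset.mul_sum]
  have e9 : ∑ k ∈ range (N + 1), gb (p ^ 4) N k * ph p ((N : ℤ) - 1 - 2 * k)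
      = - ∑ k ∈ range (N + 1), gb (p ^ 4) N k * ph p ((N : ℤ) + 1 - 2 * k) := by
    rw [← Finset.sum_range_reflect, ← Finset.sum_neg_distrib]
    apply Finset.sum_congr rfl
    intro k hk
    have hk' : k ≤ N := by simpa [Nat.lt_succ_iff] using hk
    rw [Nat.add_sub_cancel, gb_symm _ _ _ hk', Nat.cast_sub hk',
      show (N : ℤ) - 1 - 2 * ((N : ℤ) - (k : ℤ)) = -((N : ℤ) + 1 - 2 * k) by ring, ph_neg]
    ring
  rw [e9]
  ring

theorem TT_eq (p : ℝ) (hp : p ≠ 0) (N : ℕ) : TT p N = (-1) ^ N * p ^ (N ^ 2) := by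
  induction N with
  | zero => simp [TT, gb_zero, ph]
  | succ N ih =>
    rw [TT_succ p hp, ih]
    have : (N + 1) ^ 2 = (2 * N + 1) + N ^ 2 := by ring
    rw [this, pow_add, pow_succ]
    ring

/-! ### the coefficients -/

/-- `(C(j1,2)+C(j2,2)+C(j3,2) - g)` divided by three plus `C(m+1,2)` for `g = j2 + 2 j3` -/
def ex (m j1 j2 j3 : ℕ) : ℤ :=
  ((m + 1).choose 2 : ℤ)
    + (((j1.choose 2 : ℤ) + (j2.choose 2 : ℤ) + (j3.choose 2 : ℤ)) - (j2 + 2 * j3)) / 3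

/-- the coefficient of a flag count, collected -/
def ct (Q : ℝ) (m j1 j2 j3 : ℕ) : ℝ :=
  if (j2 + 2 * j3) % 3 = 0 then Q ^ (ex m j1 j2 j3)
  else if (j2 + 2 * j3) % 3 = 1 then - Q ^ (ex m j1 j2 j3) else 0

theorem two_choose (n : ℕ) : 2 * (n.choose 2 : ℤ) = (n : ℤ) ^ 2 - n := by
  induction n with
  | zero => simp
  | succ n ih =>
    rw [Nat.choose_succ_succ' n 1, Nat.choose_one_right]
    push_cast
    linear_combination ih

theorem dvd_ex (m j1 j2 j3 : ℕ) (hj : j1 + j2 + j3 = 3 * m) (h : (j2 + 2 * j3) % 3 = 0 ∨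
    (j2 + 2 * j3) % 3 = 1) :
    (3 : ℤ) ∣ (((j1.choose 2 : ℤ) + (j2.choose 2 : ℤ) + (j3.choose 2 : ℤ)) - (j2 + 2 * j3)) := by
  have h1 := two_choose j1
  have h2 := two_choose j2
  have h3 := two_choose j3
  have hj' : (j1 : ℤ) = 3 * m - j2 - j3 := by
    have : (j1 : ℤ) + j2 + j3 = 3 * m := by exact_mod_cast hj
    linarith
  have key : (3 : ℤ) ∣ 2 * (((j1.choose 2 : ℤ) + (j2.choose 2 : ℤ) + (j3.choose 2 : ℤ))
      - (j2 + 2 * j3)) := by
    have e : 2 * (((j1.choose 2 : ℤ) + (j2.choose 2 : ℤ) + (j3.choose 2 : ℤ))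
      - (j2 + 2 * j3)) = (j1 : ℤ) ^ 2 + (j2 : ℤ) ^ 2 + (j3 : ℤ) ^ 2 - 3 * m
        - 2 * (j2 + 2 * j3) := by
      linear_combination h1 + h2 + h3 - hj'
    rw [e, hj']
    rcases h with h | h
    · obtain ⟨t, ht⟩ : ∃ t : ℤ, (j2 : ℤ) = j3 + 3 * t := ⟨((j2 : ℤ) - j3) / 3, by omega⟩
      rw [ht]
      exact ⟨3 * m ^ 2 - 4 * m * j3 - 6 * m * t + 2 * j3 ^ 2 + 6 * j3 * t + 6 * t ^ 2 - m
        - 2 * j3 - 2 * t, by ring⟩
    · obtain ⟨t, ht⟩ : ∃ t : ℤ, (j2 : ℤ) = j3 + 1 + 3 * t := ⟨((j2 : ℤ) - j3 - 1) / 3, by omega⟩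
      rw [ht]
      exact ⟨3 * m ^ 2 - 4 * m * j3 - 6 * m * t + 2 * j3 ^ 2 + 6 * j3 * t + 6 * t ^ 2 - 3 * m
        + 2 * t, by ring⟩
  omega

theorem six_ex (m j1 j2 j3 : ℕ) (hj : j1 + j2 + j3 = 3 * m) (h : (j2 + 2 * j3) % 3 = 0 ∨
    (j2 + 2 * j3) % 3 = 1) :
    6 * ex m j1 j2 j3 = 3 * (m : ℤ) ^ 2 + (j1 : ℤ) ^ 2 + (j2 : ℤ) ^ 2 + (j3 : ℤ) ^ 2
      - 2 * (j2 + 2 * j3) := by
  obtain ⟨t, ht⟩ := dvd_ex m j1 j2 j3 hj h
  unfold ex
  rw [ht, Int.mul_ediv_cancel_left _ (by norm_num)]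
  have h1 := two_choose j1
  have h2 := two_choose j2
  have h3 := two_choose j3
  have h4 := two_choose (m + 1)
  have hj' : (j1 : ℤ) + j2 + j3 = 3 * m := by exact_mod_cast hj
  push_cast at h4
  linear_combination 3 * h4 + h1 + h2 + h3 - 2 * ht - hj'

/-- the coefficients in terms of `ph` -/
theorem ct_eq (p : ℝ) (hp : p ≠ 0) (m a b k : ℕ) (hba : b ≤ a) (hk : k ≤ a - b)
    (hab : a + b ≤ 3 * m) :
    ct (p ^ 4) m (a - k) (b + k) (3 * m - a - b)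
      = p ^ (4 * ((a.choose 2 : ℤ) + (b.choose 2 : ℤ) + ((m : ℤ) - 1) * (2 * m - a - b))
          - ((a - b : ℕ) : ℤ) ^ 2) * ph p (((a - b : ℕ) : ℤ) + 1 - 2 * k) := by
  obtain ⟨N, rfl⟩ := Nat.exists_eq_add_of_le hba
  have hN : b + N - b = N := by omega
  rw [hN] at hk ⊢
  obtain ⟨r, hr⟩ : ∃ r, 3 * m - (b + N) - b = r := ⟨_, rfl⟩
  have hr' : r + 2 * b + N = 3 * m := by omega
  rw [hr]
  have hsum : (b + N - k) + (b + k) + r = 3 * m := by omega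
  have hpow : ∀ t : ℤ, (p ^ 4) ^ t = p ^ (4 * t) := by
    intro t
    rw [← zpow_natCast p 4, ← zpow_mul]; rfl
  have hbN := two_choose (b + N)
  have hb := two_choose b
  have hrz : (r : ℤ) = 3 * m - 2 * b - N := by
    have : (r : ℤ) + 2 * b + N = 3 * m := by exact_mod_cast hr'
    linarith
  -- exponent comparison
  have hexp : (((b + k) + 2 * r) % 3 = 0 ∨ ((b + k) + 2 * r) % 3 = 1) →
      4 * ex m (b + N - k) (b + k) r = (4 * (((b + N).choose 2 : ℤ) + (b.choose 2 : ℤ)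
        + ((m : ℤ) - 1) * (2 * m - ((b + N : ℕ) : ℤ) - b)) - (N : ℤ) ^ 2)
        + (((N : ℤ) + 1 - 2 * k) ^ 2 - 1) / 3 := by
    intro h
    have h6 := six_ex m (b + N - k) (b + k) r hsum h
    have hd : (3 : ℤ) ∣ (((N : ℤ) + 1 - 2 * k) ^ 2 - 1) := by
      have h8 : ((N : ℤ) + 1 - 2 * k) % 3 = 1 ∨ ((N : ℤ) + 1 - 2 * k) % 3 = 2 := by
        omega
      rcases h8 with h8 | h8
      · obtain ⟨t, ht⟩ : ∃ t : ℤ, ((N : ℤ) + 1 - 2 * k) = 3 * t + 1 :=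
          ⟨((N : ℤ) + 1 - 2 * k) / 3, by omega⟩
        rw [ht]; exact ⟨3 * t ^ 2 + 2 * t, by ring⟩
      · obtain ⟨t, ht⟩ : ∃ t : ℤ, ((N : ℤ) + 1 - 2 * k) = 3 * t + 2 :=
          ⟨((N : ℤ) + 1 - 2 * k) / 3, by omega⟩
        rw [ht]; exact ⟨3 * t ^ 2 + 4 * t + 1, by ring⟩
    obtain ⟨t, ht⟩ := hd
    rw [ht, Int.mul_ediv_cancel_left _ (by norm_num)]
    rw [Nat.cast_sub (by omega : k ≤ b + N)] at h6
    push_cast at h6 hbN ⊢
    rw [hrz] at h6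
    have : 3 * (4 * ex m (b + N - k) (b + k) r) = 3 * ((4 * (((b + N).choose 2 : ℤ)
        + (b.choose 2 : ℤ)
        + ((m : ℤ) - 1) * (2 * m - ((b : ℤ) + N) - b)) - (N : ℤ) ^ 2) + t) := by
      linear_combination 2 * h6 + ht - 6 * hbN - 6 * hb
    linarith
  unfold ct ph
  have hres : ((b + k) + 2 * r) % 3 = 0 ∨ ((b + k) + 2 * r) % 3 = 1 ∨
      ((b + k) + 2 * r) % 3 = 2 := by omega
  rcases hres with h | h | h
  · have h1 : ((N : ℤ) + 1 - 2 * k) % 3 = 1 := by omega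
    rw [if_pos h, if_pos h1, hpow, hexp (Or.inl h), zpow_add₀ hp]
  · have h1 : ((N : ℤ) + 1 - 2 * k) % 3 = 2 := by omega
    rw [if_neg (by omega), if_pos h, if_neg (by omega), if_pos h1, hpow, hexp (Or.inr h),
      zpow_add₀ hp]
    push_cast; ring
  · have h1 : ((N : ℤ) + 1 - 2 * k) % 3 = 0 := by omega
    rw [if_neg (by omega), if_neg (by omega), if_neg (by omega), if_neg (by omega), mul_zero]

theorem qid (p : ℝ) (hp : p ≠ 0) (m a b : ℕ) (hba : b ≤ a) (hab : a + b ≤ 3 * m) :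
    ∑ k ∈ range (a - b + 1), gb (p ^ 4) (a - b) k * ct (p ^ 4) m (a - k) (b + k) (3 * m - a - b)
      = (-1) ^ (a + b) * (p ^ 4) ^ ((a.choose 2 : ℤ) + (b.choose 2 : ℤ)
          + ((m : ℤ) - 1) * (2 * m - a - b)) := by
  set E : ℤ := (a.choose 2 : ℤ) + (b.choose 2 : ℤ) + ((m : ℤ) - 1) * (2 * m - a - b) with hE
  have e1 : ∀ k ∈ range (a - b + 1), gb (p ^ 4) (a - b) k
      * ct (p ^ 4) m (a - k) (b + k) (3 * m - a - b)
      = p ^ (4 * E - ((a - b : ℕ) : ℤ) ^ 2)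
        * (gb (p ^ 4) (a - b) k * ph p (((a - b : ℕ) : ℤ) + 1 - 2 * k)) := by
    intro k hk
    have hk' : k ≤ a - b := by simpa [Nat.lt_succ_iff] using hk
    rw [ct_eq p hp m a b k hba hk' hab]
    ring
  rw [Finset.sum_congr rfl e1, ← Finset.mul_sum]
  have e2 := TT_eq p hp (a - b)
  unfold TT at e2
  rw [e2]
  have e3 : (-1 : ℝ) ^ (a + b) = (-1) ^ (a - b) := by
    obtain ⟨N, rfl⟩ := Nat.exists_eq_add_of_le hba
    rw [show b + N - b = N by omega, show b + N + b = 2 * b + N by ring, pow_add, pow_mul]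
    simp
  rw [e3]
  have e4 : p ^ (4 * E - ((a - b : ℕ) : ℤ) ^ 2) * p ^ ((a - b) ^ 2) = (p ^ 4) ^ E := by
    rw [← zpow_natCast p 4, ← zpow_mul, ← zpow_natCast p ((a - b) ^ 2), ← zpow_add₀ hp]
    congr 1
    push_cast
    ring
  rw [← e4]
  ring

end

end Pool.Agent.W35.Sub3
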