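import Mathlib
import Pool.Agent.W35.Sub3.K
import Pool.Agent.W35.Sub3.QB

/-!
Counting invariant subspaces and flags of invariant subspaces; the universal formula.
-/

namespace Pool.Agent.W35.Sub3

open Module Finset Classical

noncomputable section

variable {F : Type*} [Field F] [Fintype F] {V : Type*} [AddCommGroup V] [Module F V]
  [Module.Finite F V]

/-! ### coefficient extraction -/

theorem mu_add (q b k : ℕ) :
    mu q ℝ (b + k) = mu q ℝ b * ((-1) ^ k * (q : ℝ) ^ (k.choose 2 + b * k)) := by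
  induction k with
  | zero => simp
  | succ k ih =>
    rw [← add_assoc, mu_succ, ih]
    have : (k + 1).choose 2 = k.choose 2 + k := by
      rw [Nat.choose_succ_succ' k 1, Nat.choose_one_right, add_comm]
    rw [this, pow_succ (-1 : ℝ) k]
    have e : (q : ℝ) ^ (k.choose 2 + k + b * (k + 1))
        = (q : ℝ) ^ (k.choose 2 + b * k) * (q : ℝ) ^ (b + k) := by
      rw [← pow_add]; congr 1; ring
    rw [e]; ring

/-- the coefficients of the product -/
def pc (Q : ℝ) (b N k : ℕ) : ℝ := (-1) ^ k * Q ^ (k.choose 2 + b * k) * gb Q N k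

theorem pc_zero (Q : ℝ) (b N : ℕ) : pc Q b N 0 = 1 := by simp [pc, gb_zero]

theorem pc_gt (Q : ℝ) (b N : ℕ) : pc Q b N (N + 1) = 0 := by
  simp [pc, gb_gt Q N (N + 1) (by omega)]

theorem pc_succ (Q : ℝ) (b N k : ℕ) (hk : k ≤ N) :
    pc Q b (N + 1) (k + 1) = pc Q b N (k + 1) - pc Q b N k * Q ^ (b + N) := by
  unfold pc
  rw [gb_succ' Q N k hk]
  have h1 : (k + 1).choose 2 = k.choose 2 + k := by
    rw [Nat.choose_succ_succ' k 1, Nat.choose_one_right, add_comm]
  obtain ⟨j, rfl⟩ := Nat.exists_eq_add_of_le hk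
  rw [h1, Nat.add_sub_cancel_left]
  have e2 : Q ^ (k.choose 2 + k + b * (k + 1)) * Q ^ j
      = Q ^ (k.choose 2 + b * k) * Q ^ (b + (k + j)) := by
    rw [← pow_add, ← pow_add]; congr 1; ring
  rw [pow_succ (-1 : ℝ) k]
  linear_combination (-(-1 : ℝ) ^ k * gb Q (k + j) k) * e2

theorem prod_expand (Q : ℝ) (b N : ℕ) :
    ∏ i ∈ Finset.Ico b (b + N), ((Polynomial.X : Polynomial ℝ) - Polynomial.C (Q ^ i))
      = ∑ k ∈ range (N + 1), Polynomial.C (pc Q b N k) * Polynomial.X ^ (N - k) := by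
  induction N with
  | zero => simp [pc_zero]
  | succ N ih =>
    rw [← add_assoc, Finset.prod_Ico_succ_top (by omega), ih]
    have e1 : ∑ k ∈ range (N + 1), Polynomial.C (pc Q b N k) * Polynomial.X ^ (N + 1 - k)
        = ∑ k ∈ range (N + 1), Polynomial.C (pc Q b N (k + 1)) * Polynomial.X ^ (N - k)
          + Polynomial.X ^ (N + 1) := by
      have e2 : ∑ k ∈ range (N + 1 + 1), Polynomial.C (pc Q b N k) * Polynomial.X ^ (N + 1 - k)
          = ∑ k ∈ range (N + 1), Polynomial.C (pc Q b N k) * Polynomial.X ^ (N + 1 - k) := by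
        rw [Finset.sum_range_succ, pc_gt]; simp
      rw [← e2, Finset.sum_range_succ', pc_zero]
      simp
    have e3 : (∑ k ∈ range (N + 1), Polynomial.C (pc Q b N k) * Polynomial.X ^ (N - k))
        * Polynomial.X
        = ∑ k ∈ range (N + 1), Polynomial.C (pc Q b N k) * Polynomial.X ^ (N + 1 - k) := by
      rw [Finset.sum_mul]
      apply Finset.sum_congr rfl
      intro k hk
      have hk' : k ≤ N := by simpa [Nat.lt_succ_iff] using hk
      rw [show N + 1 - k = (N - k) + 1 by omega, pow_succ]; ring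
    rw [mul_sub, e3, e1, Finset.sum_range_succ' _ (N + 1), pc_zero]
    have e4 : ∀ k ∈ range (N + 1), Polynomial.C (pc Q b (N + 1) (k + 1))
        * Polynomial.X ^ (N + 1 - (k + 1))
        = Polynomial.C (pc Q b N (k + 1)) * Polynomial.X ^ (N - k)
          - Polynomial.C (pc Q b N k) * Polynomial.X ^ (N - k) * Polynomial.C (Q ^ (b + N)) := by
      intro k hk
      have hk' : k ≤ N := by simpa [Nat.lt_succ_iff] using hk
      rw [pc_succ Q b N k hk', show N + 1 - (k + 1) = N - k by omega, Polynomial.C_sub,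
        Polynomial.C_mul]
      ring
    rw [Finset.sum_congr rfl e4, Finset.sum_sub_distrib, ← Finset.sum_mul]
    simp only [Nat.sub_zero, map_one, one_mul]
    ring

/-- the (shifted) Gaussian binomial coefficient -/
def kap (Q : ℝ) (N b w : ℕ) : ℝ := if b ≤ w then gb Q N (w - b) else 0

theorem kap_symm (Q : ℝ) (N b w : ℕ) (hw : w ≤ N + 2 * b) :
    kap Q N b (N + 2 * b - w) = kap Q N b w := by
  unfold kap
  by_cases h1 : b ≤ w
  · rw [if_pos h1]
    by_cases h2 : b ≤ N + 2 * b - w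
    · rw [if_pos h2, show N + 2 * b - w - b = N - (w - b) by omega, gb_symm _ _ _ (by omega)]
    · rw [if_neg h2, gb_gt _ _ _ (by omega)]
  · rw [if_neg h1, if_pos (by omega), gb_gt _ _ _ (by omega)]

theorem coeff_prod (q : ℕ) (hq : 0 < q) (b N w : ℕ) (hw : w ≤ N + 2 * b) :
    ((Polynomial.X : Polynomial ℝ) ^ b * ∏ i ∈ Finset.Ico b (b + N),
      ((Polynomial.X : Polynomial ℝ) - Polynomial.C ((q : ℝ) ^ i))).coeff (N + 2 * b - w)
      = mu q ℝ w * ((mu q ℝ b)⁻¹ * kap q N b w) := by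
  have hmu : mu q ℝ b ≠ 0 := by
    unfold mu
    have : (q : ℝ) ≠ 0 := by exact_mod_cast hq.ne'
    positivity
  rw [prod_expand, Finset.mul_sum, Polynomial.finset_sum_coeff]
  unfold pc
  have e1 : ∀ k ∈ range (N + 1), ((Polynomial.X : Polynomial ℝ) ^ b
      * (Polynomial.C ((-1) ^ k * (q : ℝ) ^ (k.choose 2 + b * k) * gb q N k)
          * Polynomial.X ^ (N - k))).coeff (N + 2 * b - w)
      = if k + b = w then (-1) ^ k * (q : ℝ) ^ (k.choose 2 + b * k) * gb q N k else 0 := by
    intro k hk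
    have hk' : k ≤ N := by simpa [Nat.lt_succ_iff] using hk
    have e2 : (Polynomial.X : Polynomial ℝ) ^ b
      * (Polynomial.C ((-1) ^ k * (q : ℝ) ^ (k.choose 2 + b * k) * gb q N k)
          * Polynomial.X ^ (N - k))
        = Polynomial.C ((-1) ^ k * (q : ℝ) ^ (k.choose 2 + b * k) * gb q N k)
          * Polynomial.X ^ (b + (N - k)) := by
      rw [pow_add]; ring
    rw [e2, Polynomial.coeff_C_mul_X_pow]
    by_cases h : k + b = w
    · rw [if_pos h, if_pos (by omega)]
    · rw [if_neg h, if_neg (by omega)]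
  rw [Finset.sum_congr rfl e1]
  unfold kap
  by_cases h : b ≤ w
  · obtain ⟨k0, rfl⟩ := Nat.exists_eq_add_of_le h
    rw [if_pos h, Nat.add_sub_cancel_left, mu_add]
    have e3 : ∀ k ∈ range (N + 1), (if k + b = b + k0 then (-1) ^ k
        * (q : ℝ) ^ (k.choose 2 + b * k) * gb q N k else 0)
        = if k = k0 then (-1) ^ k0 * (q : ℝ) ^ (k0.choose 2 + b * k0) * gb q N k0 else 0 := by
      intro k _
      by_cases h2 : k = k0
      · subst h2; rw [if_pos (by omega), if_pos rfl]
      · rw [if_neg (by omega), if_neg h2]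
    rw [Finset.sum_congr rfl e3, Finset.sum_ite_eq' (range (N + 1)) k0]
    have hcancel : mu q ℝ b * ((-1) ^ k0 * (q : ℝ) ^ (k0.choose 2 + b * k0))
        * ((mu q ℝ b)⁻¹ * gb q N k0) = (-1) ^ k0 * (q : ℝ) ^ (k0.choose 2 + b * k0)
          * gb q N k0 := by
      field_simp
    rw [hcancel]
    split_ifs with h3
    · rfl
    · have : N < k0 := by simpa using h3
      rw [gb_gt _ _ _ this, mul_zero]
  · rw [if_neg h, mul_zero, mul_zero]
    apply Finset.sum_eq_zero
    intro k _
    rw [if_neg (by omega)]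

/-! ### counting invariant subspaces in an interval -/

/-- invariance -/
def St (T : V →ₗ[F] V) (Z : Submodule F V) : Prop := Z ≤ Z.comap T

/-- the number of stable subspaces `Z` with `A ≤ Z ≤ B` and `dim Z = dim A + w` -/
def Nw (T : V →ₗ[F] V) (A B : Submodule F V) (w : ℕ) : ℕ :=
  (univ.filter (fun Z : Submodule F V => A ≤ Z ∧ Z ≤ B ∧ St T Z ∧ dm Z = dm A + w)).card

/-- subspaces between `A` and `B` whose largest part mapped into itself is `A` -/
def Aset (T : V →ₗ[F] V) (A B : Submodule F V) : Finset (Submodule F V) :=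
  univ.filter (fun Y : Submodule F V => A ≤ Y ∧ Y ≤ B ∧ Y ⊓ Y.comap T = A)

theorem Aset_dim {T : V →ₗ[F] V} {A B Y : Submodule F V} (hB : St T B) (hY : Y ∈ Aset T A B) :
    dm A ≤ dm Y ∧ dm Y ≤ dm B ∧ 2 * dm Y ≤ dm A + dm B := by
  simp only [Aset, mem_filter, mem_univ, true_and] at hY
  obtain ⟨h1, h2, h3⟩ := hY
  refine ⟨dm_mono h1, dm_mono h2, ?_⟩
  have h4 := dm_sup_map T Y Y
  rw [h3] at h4
  have h5 : dm (Y ⊔ Y.map T) ≤ dm B := by
    apply dm_mono
    refine sup_le h2 ?_
    rw [Submodule.map_le_iff_le_comap]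
    exact h2.trans hB
  omega

theorem Nw_formula (T : V →ₗ[F] V) {A B : Submodule F V} (hAB : A ≤ B) (hA : St T A)
    (hB : St T B) (w : ℕ) (hw : w ≤ dm B - dm A) :
    (Nw T A B w : ℝ) = ∑ Y ∈ Aset T A B, (mu (Fintype.card F) ℝ (dm Y - dm A))⁻¹
      * kap (Fintype.card F) (dm B - dm A - 2 * (dm Y - dm A)) (dm Y - dm A) w := by
  set q := Fintype.card F with hq
  have hq0 : 0 < q := Fintype.card_pos
  have hmu : ∀ n, mu q ℝ n ≠ 0 := by
    intro n
    unfold mu
    have : (q : ℝ) ≠ 0 := by exact_mod_cast hq0.ne'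
    positivity
  have hdAB : dm A ≤ dm B := dm_mono hAB
  have key := K0 (F := F) (Polynomial.X : Polynomial ℝ) T hA hB
  have key2 := congrArg (fun P : Polynomial ℝ => P.coeff (dm B - dm A - w)) key
  simp only [Polynomial.finset_sum_coeff] at key2
  have hL : ∀ Y ∈ Aset T A B, ((Polynomial.X : Polynomial ℝ) ^ (dm Y - dm A) *
        ∏ i ∈ Finset.Ico (dm Y - dm A) (dm B - dm Y),
          ((Polynomial.X : Polynomial ℝ) - (Fintype.card F : Polynomial ℝ) ^ i)).coeff
            (dm B - dm A - w)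
      = mu q ℝ w * ((mu q ℝ (dm Y - dm A))⁻¹
        * kap q (dm B - dm A - 2 * (dm Y - dm A)) (dm Y - dm A) w) := by
    intro Y hY
    obtain ⟨h1, h2, h3⟩ := Aset_dim hB hY
    obtain ⟨b, hb⟩ := Nat.exists_eq_add_of_le h1
    obtain ⟨N, hN⟩ : ∃ N, dm B = dm A + (N + 2 * b) := ⟨dm B - dm A - 2 * b, by omega⟩
    have e1 : dm Y - dm A = b := by omega
    have e2 : dm B - dm Y = b + N := by omega
    have e3 : dm B - dm A = N + 2 * b := by omega
    rw [e1, e2, e3, show N + 2 * b - 2 * b = N by omega, ← coeff_prod q hq0 b N w (by omega)]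
    congr 2
    apply Finset.prod_congr rfl
    intro i _
    rw [Polynomial.C_pow]
    simp [hq]
  have hR : ∀ Z ∈ univ.filter (fun Z : Submodule F V => A ≤ Z ∧ Z ≤ B ∧ Z ≤ Z.comap T),
      (muF F (Polynomial ℝ) (dm Z - dm A) * (Polynomial.X : Polynomial ℝ) ^ (dm B - dm Z)).coeff
        (dm B - dm A - w) = mu q ℝ w * (if dm Z = dm A + w then 1 else 0) := by
    intro Z hZ
    simp only [mem_filter, mem_univ, true_and] at hZ
    have h1 : dm A ≤ dm Z := dm_mono hZ.1
    have h2 : dm Z ≤ dm B := dm_mono hZ.2.1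
    have e1 : muF F (Polynomial ℝ) (dm Z - dm A) = Polynomial.C (mu q ℝ (dm Z - dm A)) := by
      unfold muF mu
      simp [hq]
    rw [e1, Polynomial.coeff_C_mul_X_pow]
    by_cases h : dm Z = dm A + w
    · rw [if_pos h, if_pos (by omega), mul_one, show dm Z - dm A = w by omega]
    · rw [if_neg h, if_neg (by omega), mul_zero]
  have key3 : ∑ Y ∈ Aset T A B, mu q ℝ w * ((mu q ℝ (dm Y - dm A))⁻¹
        * kap q (dm B - dm A - 2 * (dm Y - dm A)) (dm Y - dm A) w)
      = ∑ Z ∈ univ.filter (fun Z : Submodule F V => A ≤ Z ∧ Z ≤ B ∧ Z ≤ Z.comap T),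
        mu q ℝ w * (if dm Z = dm A + w then 1 else 0) := by
    rw [← Finset.sum_congr rfl hL, ← Finset.sum_congr rfl hR]
    exact key2
  rw [← Finset.mul_sum, ← Finset.mul_sum] at key3
  have key4 := mul_left_cancel₀ (hmu w) key3
  rw [key4, ← Finset.sum_filter, Finset.filter_filter, Finset.sum_const, nsmul_eq_mul, mul_one]
  unfold Nw St
  congr 2
  ext Z
  simp only [mem_filter, mem_univ, true_and]
  tauto

/-- the number of invariant subspaces of dimension `w` equals that of codimension `w` -/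
theorem Nw_symm (T : V →ₗ[F] V) {A B : Submodule F V} (hAB : A ≤ B) (hA : St T A)
    (hB : St T B) (w w' : ℕ) (hw : dm A + (w + w') = dm B) : Nw T A B w = Nw T A B w' := by
  have h1 := Nw_formula T hAB hA hB w (by omega)
  have h2 := Nw_formula T hAB hA hB w' (by omega)
  have : (Nw T A B w : ℝ) = Nw T A B w' := by
    rw [h1, h2]
    apply Finset.sum_congr rfl
    intro Y hY
    obtain ⟨h3, h4, h5⟩ := Aset_dim hB hY
    congr 1
    rw [← kap_symm _ _ _ w (by omega)]
    congr 1
    omega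
  exact_mod_cast this

end

end Pool.Agent.W35.Sub3
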