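import Mathlib
import Pool.Agent.W35.Sub3.Main

/-!
Flags of invariant subspaces, the universal formula in real form.
-/

namespace Pool.Agent.W35.Sub3

open Module Finset Classical

noncomputable section

variable {F : Type*} [Field F] [Fintype F] {V : Type*} [AddCommGroup V] [Module F V]
  [Module.Finite F V]

/-- the number of flags `W1 ≤ W2` of stable subspaces with `dim W1 = j1`, `dim W2 = j1 + j2` -/
def Y2 (T : V →ₗ[F] V) (j1 j2 : ℕ) : ℕ :=
  (univ.filter (fun W : Submodule F V × Submodule F V =>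
    W.1 ≤ W.2 ∧ St T W.1 ∧ St T W.2 ∧ dm W.1 = j1 ∧ dm W.2 = j1 + j2)).card

theorem Y2_left (T : V →ₗ[F] V) (j1 j2 : ℕ) :
    Y2 T j1 j2 = ∑ U ∈ univ.filter (fun U : Submodule F V => St T U ∧ dm U = j1),
      Nw T U ⊤ j2 := by
  unfold Y2
  rw [Finset.card_filter, Fintype.sum_prod_type, Finset.sum_filter]
  apply Finset.sum_congr rfl
  intro U _
  by_cases h : St T U ∧ dm U = j1
  · rw [if_pos h]
    unfold Nw
    rw [Finset.card_filter]
    apply Finset.sum_congr rfl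
    intro Z _
    congr 1
    apply propext
    constructor
    · rintro ⟨h1, _, h3, _, h5⟩
      exact ⟨h1, le_top, h3, by rw [h5, h.2]⟩
    · rintro ⟨h1, _, h3, h4⟩
      exact ⟨h1, h.1, h3, h.2, by rw [h4, h.2]⟩
  · rw [if_neg h]
    apply Finset.sum_eq_zero
    intro Z _
    rw [if_neg]
    rintro ⟨_, h2, _, h4, _⟩
    exact h ⟨h2, h4⟩

theorem Y2_right (T : V →ₗ[F] V) (j1 j2 : ℕ) :
    Y2 T j1 j2 = ∑ U ∈ univ.filter (fun U : Submodule F V => St T U ∧ dm U = j1 + j2),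
      Nw T ⊥ U j1 := by
  unfold Y2
  rw [Finset.card_filter, Fintype.sum_prod_type_right, Finset.sum_filter]
  apply Finset.sum_congr rfl
  intro U _
  by_cases h : St T U ∧ dm U = j1 + j2
  · rw [if_pos h]
    unfold Nw
    rw [Finset.card_filter]
    apply Finset.sum_congr rfl
    intro Z _
    congr 1
    apply propext
    constructor
    · rintro ⟨h1, h2, h3, h4, h5⟩
      exact ⟨bot_le, h1, h2, by rw [dm_bot, h4, zero_add]⟩
    · rintro ⟨_, h1, h3, h4⟩
      exact ⟨h1, h3, h.1, by rw [h4, dm_bot, zero_add], h.2⟩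
  · rw [if_neg h]
    apply Finset.sum_eq_zero
    intro Z _
    rw [if_neg]
    rintro ⟨_, _, h3, _, h5⟩
    exact h ⟨h3, h5⟩

theorem St_bot (T : V →ₗ[F] V) : St T ⊥ := bot_le

theorem St_top (T : V →ₗ[F] V) : St T ⊤ := by unfold St; rw [Submodule.comap_top]

theorem Y2_swap23 (T : V →ₗ[F] V) (j1 j2 j3 : ℕ) (h : j1 + j2 + j3 = finrank F V) :
    Y2 T j1 j2 = Y2 T j1 j3 := by
  rw [Y2_left, Y2_left]
  apply Finset.sum_congr rfl
  intro U hU
  simp only [mem_filter, mem_univ, true_and] at hU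
  apply Nw_symm T le_top hU.1 (St_top T)
  rw [hU.2, dm_top]; omega

theorem Y2_swap12 (T : V →ₗ[F] V) (j1 j2 : ℕ) : Y2 T j1 j2 = Y2 T j2 j1 := by
  rw [Y2_right, Y2_right, add_comm j2 j1]
  apply Finset.sum_congr rfl
  intro U hU
  simp only [mem_filter, mem_univ, true_and] at hU
  apply Nw_symm T bot_le (St_bot T) hU.1
  rw [hU.2, dm_bot]; omega

theorem Y2_cyc (T : V →ₗ[F] V) (j1 j2 j3 : ℕ) (h : j1 + j2 + j3 = finrank F V) :
    Y2 T j1 j2 = Y2 T j3 j1 := by
  rw [Y2_swap23 T j1 j2 j3 h, Y2_swap12]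

/-- triples of natural numbers with sum `n` -/
def triples (n : ℕ) : Finset (ℕ × ℕ × ℕ) :=
  (range (n + 1) ×ˢ range (n + 1) ×ˢ range (n + 1)).filter (fun j => j.1 + j.2.1 + j.2.2 = n)

theorem mem_triples (n : ℕ) (j : ℕ × ℕ × ℕ) : j ∈ triples n ↔ j.1 + j.2.1 + j.2.2 = n := by
  unfold triples
  simp only [mem_filter, mem_product, mem_range]
  constructor
  · rintro ⟨_, h⟩; exact h
  · intro h
    refine ⟨⟨by omega, by omega, by omega⟩, h⟩

theorem triples_fix (n u : ℕ) (hu : u ≤ n) (f : ℕ → ℕ → ℕ → ℝ) :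
    ∑ j ∈ triples n, (if j.2.2 = u then f j.1 j.2.1 j.2.2 else 0)
      = ∑ w ∈ range (n - u + 1), f w (n - u - w) u := by
  rw [← Finset.sum_filter]
  refine Finset.sum_bij' (fun j _ => j.1) (fun w _ => (w, n - u - w, u)) ?_ ?_ ?_ ?_ ?_
  · intro j hj
    simp only [mem_filter, mem_triples] at hj
    simp only [mem_range]; omega
  · intro w hw
    simp only [mem_range] at hw
    simp only [mem_filter, mem_triples]
    exact ⟨by omega, trivial⟩
  · intro j hj
    simp only [mem_filter, mem_triples] at hj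
    ext
    · rfl
    · simp only; omega
    · simp only; omega
  · intro w hw; rfl
  · intro j hj
    simp only [mem_filter, mem_triples] at hj
    rw [hj.2]
    congr 1
    omega

/-- the number of `m`-dimensional `X` with `X + TX + T²X = V` -/
def sig (T : V →ₗ[F] V) (m : ℕ) : ℕ :=
  (univ.filter (fun X : Submodule F V => dm X = m ∧ (X ⊔ X.map T) ⊔ X.map (T ∘ₗ T) = ⊤)).card

theorem dims_of_sup {T : V →ₗ[F] V} {m : ℕ} (hn : finrank F V = 3 * m) {X : Submodule F V}
    (h : (X ⊔ X.map T) ⊔ X.map (T ∘ₗ T) = ⊤) :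
    dm (X ⊔ X.map T) ≤ 2 * dm X ∧ 3 * m + dm X ≤ 2 * dm (X ⊔ X.map T) := by
  constructor
  · have h1 := dm_sup_inf X (X.map T)
    have h2 := dm_map_add T X
    omega
  · set A := X ⊔ X.map T with hA
    have h1 := dm_sup_map T A A
    have h2 : A ⊔ A.map T = ⊤ := by
      rw [eq_top_iff, ← h]
      refine sup_le le_sup_left ?_
      refine le_trans ?_ le_sup_right
      rw [hA, Submodule.map_sup, Submodule.map_comp]
      exact le_sup_right
    have h3 : X ≤ A ⊓ A.comap T := by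
      refine le_inf le_sup_left ?_
      rw [← Submodule.map_le_iff_le_comap]
      exact le_sup_right
    have h4 := dm_mono h3
    rw [h2, dm_top, hn] at h1
    omega

theorem KB_left (T : V →ₗ[F] V) (m : ℕ) (hn : finrank F V = 3 * m) (z : ℝ)
    (hz : z = (Fintype.card F : ℝ) ^ ((m : ℤ) - 1)) :
    ∑ X ∈ univ.filter (fun X : Submodule F V => (X ⊔ X.map T) ⊔ X.map (T ∘ₗ T) = ⊤),
      z ^ (finrank F V - dm (X ⊔ X.map T)) *
        ∏ i ∈ Finset.Ico (finrank F V - dm (X ⊔ X.map T)) (dm X),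
          (z - (Fintype.card F : ℝ) ^ i) = (sig T m : ℝ) * z ^ m := by
  have e1 : ∀ X ∈ univ.filter (fun X : Submodule F V => (X ⊔ X.map T) ⊔ X.map (T ∘ₗ T) = ⊤),
      z ^ (finrank F V - dm (X ⊔ X.map T)) *
        ∏ i ∈ Finset.Ico (finrank F V - dm (X ⊔ X.map T)) (dm X),
          (z - (Fintype.card F : ℝ) ^ i) = if dm X = m then z ^ m else 0 := by
    intro X hX
    simp only [mem_filter, mem_univ, true_and] at hX
    obtain ⟨h1, h2⟩ := dims_of_sup hn hX
    by_cases h : dm X = m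
    · rw [if_pos h, h]
      have h3 : dm (X ⊔ X.map T) = 2 * m := by omega
      rw [h3, hn, show 3 * m - 2 * m = m by omega, Finset.Ico_self, Finset.prod_empty, mul_one]
    · rw [if_neg h]
      have h4 : dm X ≤ 3 * m := by
        rw [← hn, ← dm_top (F := F) (V := V)]; exact dm_mono le_top
      have h5 : dm (X ⊔ X.map T) ≤ 3 * m := by
        rw [← hn, ← dm_top (F := F) (V := V)]; exact dm_mono le_top
      have h6 : m - 1 ∈ Finset.Ico (finrank F V - dm (X ⊔ X.map T)) (dm X) := by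
        rw [Finset.mem_Ico, hn]; omega
      have h7 : z - (Fintype.card F : ℝ) ^ (m - 1) = 0 := by
        rw [hz, ← zpow_natCast (Fintype.card F : ℝ) (m - 1), Nat.cast_sub (by omega)]
        simp
      rw [Finset.prod_eq_zero h6 h7, mul_zero]
  rw [Finset.sum_congr rfl e1, ← Finset.sum_filter, Finset.filter_filter, Finset.sum_const,
    nsmul_eq_mul]
  congr 2
  unfold sig
  congr 1
  ext X
  simp only [mem_filter, mem_univ, true_and]
  tauto

theorem KB_right (T : V →ₗ[F] V) (z : ℝ) :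
    ∑ C ∈ univ.filter (fun C : Submodule F V => (C ⊓ C.comap T).map (T ∘ₗ T) ≤ C),
      muF F ℝ (finrank F V - dm C) * z ^ (dm (C ⊓ C.comap T))
    = ∑ U ∈ univ.filter (fun U : Submodule F V => St T U), ∑ C ∈ Aset T U ⊤,
      muF F ℝ (finrank F V - dm C) * z ^ (dm U) := by
  have hiff : ∀ C : Submodule F V, (C ⊓ C.comap T).map (T ∘ₗ T) ≤ C ↔ St T (C ⊓ C.comap T) := by
    intro C
    constructor
    · intro h x hx
      have h1 : x ∈ C := hx.1
      have h2 : T x ∈ C := hx.2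
      refine ⟨h2, ?_⟩
      exact h (Submodule.mem_map_of_mem hx)
    · intro h
      rw [Submodule.map_le_iff_le_comap]
      intro x hx
      have h1 : T x ∈ C ⊓ C.comap T := h hx
      exact h1.2
  have hmaps : ∀ C ∈ univ.filter (fun C : Submodule F V => (C ⊓ C.comap T).map (T ∘ₗ T) ≤ C),
      C ⊓ C.comap T ∈ univ.filter (fun U : Submodule F V => St T U) := by
    intro C hC
    simp only [mem_filter, mem_univ, true_and] at hC ⊢
    exact (hiff C).1 hC
  rw [← Finset.sum_fiberwise_of_maps_to hmaps]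
  apply Finset.sum_congr rfl
  intro U hU
  simp only [mem_filter, mem_univ, true_and] at hU
  rw [Finset.filter_filter]
  have e : univ.filter (fun C : Submodule F V => (C ⊓ C.comap T).map (T ∘ₗ T) ≤ C
      ∧ C ⊓ C.comap T = U) = Aset T U ⊤ := by
    ext C
    simp only [Aset, mem_filter, mem_univ, true_and]
    constructor
    · rintro ⟨_, h2⟩
      refine ⟨?_, le_top, h2⟩
      rw [← h2]; exact inf_le_left
    · rintro ⟨_, _, h3⟩
      refine ⟨?_, h3⟩
      rw [hiff, h3]; exact hU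
  rw [e]
  apply Finset.sum_congr rfl
  intro C hC
  simp only [Aset, mem_filter, mem_univ, true_and] at hC
  rw [hC.2.2]

theorem stepU (T : V →ₗ[F] V) (m : ℕ) (hn : finrank F V = 3 * m) (z : ℝ)
    (hz : z = (Fintype.card F : ℝ) ^ ((m : ℤ) - 1)) (U : Submodule F V) (hU : St T U) :
    ∑ w ∈ range (3 * m - dm U + 1), ct (Fintype.card F) m w (3 * m - dm U - w) (dm U)
        * (Nw T U ⊤ w : ℝ)
      = (∑ C ∈ Aset T U ⊤, muF F ℝ (finrank F V - dm C) * z ^ (dm U)) * (z ^ m)⁻¹ := by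
  set q := Fintype.card F with hq
  have hq0 : 0 < q := Fintype.card_pos
  have hqr : (0 : ℝ) < q := by exact_mod_cast hq0
  have hmu : ∀ n, mu q ℝ n ≠ 0 := by
    intro n
    unfold mu
    have : (q : ℝ) ≠ 0 := hqr.ne'
    positivity
  set p : ℝ := √(√(q : ℝ)) with hp
  have hp4 : p ^ 4 = q := by
    have h1 : p ^ 4 = (p ^ 2) ^ 2 := by ring
    rw [h1, hp, Real.sq_sqrt (Real.sqrt_nonneg _), Real.sq_sqrt hqr.le]
  have hp0 : p ≠ 0 := by
    rw [hp]
    exact (Real.sqrt_pos.2 (Real.sqrt_pos.2 hqr)).ne'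
  have htop : dm (⊤ : Submodule F V) = 3 * m := by rw [dm_top, hn]
  have hdU : dm U ≤ 3 * m := by rw [← htop]; exact dm_mono le_top
  have e1 : ∀ w ∈ range (3 * m - dm U + 1), ct q m w (3 * m - dm U - w) (dm U)
        * (Nw T U ⊤ w : ℝ)
      = ∑ C ∈ Aset T U ⊤, ct q m w (3 * m - dm U - w) (dm U)
          * ((mu q ℝ (dm C - dm U))⁻¹
            * kap q (3 * m - dm U - 2 * (dm C - dm U)) (dm C - dm U) w) := by
    intro w hw
    have hw' : w ≤ 3 * m - dm U := by simpa [Nat.lt_succ_iff] using hw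
    rw [Nw_formula T le_top hU (St_top T) w (by rw [htop]; exact hw'), Finset.mul_sum, htop]
  rw [Finset.sum_congr rfl e1, Finset.sum_comm, Finset.sum_mul]
  apply Finset.sum_congr rfl
  intro C hC
  obtain ⟨h1, h2, h3⟩ := Aset_dim (St_top T) hC
  rw [htop] at h2 h3
  obtain ⟨b, hb⟩ := Nat.exists_eq_add_of_le h1
  obtain ⟨a, ha⟩ := Nat.exists_eq_add_of_le h2
  have hba : b ≤ a := by omega
  have hab : a + b ≤ 3 * m := by omega
  have e2 : dm C - dm U = b := by omega
  have e3 : 3 * m - dm U = a + b := by omega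
  have e4 : finrank F V - dm C = a := by omega
  have e5 : dm U = 3 * m - a - b := by omega
  have e6 : 3 * m - dm U - 2 * (dm C - dm U) = a - b := by omega
  rw [e6, e2, e3, e4]
  have key := qid p hp0 m a b hba hab
  rw [hp4] at key
  -- reindex
  have e7 : ∑ w ∈ range (a + b + 1), ct q m w (a + b - w) (dm U)
      * ((mu q ℝ b)⁻¹ * kap q (a - b) b w)
      = (mu q ℝ b)⁻¹ * ∑ k ∈ range (a - b + 1), gb q (a - b) k
          * ct q m (a - k) (b + k) (3 * m - a - b) := by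
    rw [← Finset.sum_range_reflect (fun k => gb q (a - b) k
          * ct q m (a - k) (b + k) (3 * m - a - b)) (a - b + 1), Finset.mul_sum]
    have e8 : ∀ k ∈ range (a - b + 1), (mu q ℝ b)⁻¹ * (gb q (a - b) (a - b + 1 - 1 - k)
          * ct q m (a - (a - b + 1 - 1 - k)) (b + (a - b + 1 - 1 - k)) (3 * m - a - b))
        = ct q m (b + k) (a + b - (b + k)) (dm U) * ((mu q ℝ b)⁻¹ * kap q (a - b) b (b + k)) := by
      intro k hk
      have hk' : k ≤ a - b := by simpa [Nat.lt_succ_iff] using hk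
      unfold kap
      rw [if_pos (by omega), Nat.add_sub_cancel, gb_symm _ _ _ hk', Nat.add_sub_cancel_left,
        show a - (a - b - k) = b + k by omega, show b + (a - b - k) = a - k by omega,
        show a + b - (b + k) = a - k by omega, ← e5]
      ring
    rw [Finset.sum_congr rfl e8]
    -- sum over range (a+b+1) restricted
    have e9 : a + b + 1 = b + (a - b + 1 + b) := by omega
    rw [e9, Finset.sum_range_add, Finset.sum_range_add]
    have z1 : ∑ x ∈ range b, ct q m x (a + b - x) (dm U)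
        * ((mu q ℝ b)⁻¹ * kap q (a - b) b x) = 0 := by
      apply Finset.sum_eq_zero
      intro x hx
      have hx' : x < b := by simpa using hx
      unfold kap
      rw [if_neg (by omega)]; ring
    have z2 : ∑ x ∈ range b, ct q m (b + (a - b + 1 + x)) (a + b - (b + (a - b + 1 + x))) (dm U)
        * ((mu q ℝ b)⁻¹ * kap q (a - b) b (b + (a - b + 1 + x))) = 0 := by
      apply Finset.sum_eq_zero
      intro x hx
      unfold kap
      rw [if_pos (by omega), Nat.add_sub_cancel_left, gb_gt _ _ _ (by omega)]; ring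
    rw [z1, z2]; ring
  rw [e7, key]
  have hQ : (q : ℝ) ≠ 0 := hqr.ne'
  have e10 : (q : ℝ) ^ ((a.choose 2 : ℤ) + (b.choose 2 : ℤ) + ((m : ℤ) - 1) * (2 * m - a - b))
      = (q : ℝ) ^ (a.choose 2) * (q : ℝ) ^ (b.choose 2) * (z ^ (dm U) * (z ^ m)⁻¹) := by
    rw [zpow_add₀ hQ, zpow_add₀ hQ, zpow_natCast, zpow_natCast]
    congr 1
    rw [hz, ← zpow_natCast _ (dm U), ← zpow_natCast _ m, ← zpow_mul, ← zpow_mul, ← zpow_neg,
      ← zpow_add₀ hQ]
    congr 1
    rw [e5, Nat.sub_sub, Nat.cast_sub hab]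
    push_cast
    ring
  rw [e10]
  unfold muF mu
  rw [pow_add]
  have hs : ((-1 : ℝ) ^ b) * ((-1 : ℝ) ^ b) = 1 := by
    rw [← mul_pow]; norm_num
  have hb1 : ((-1 : ℝ) ^ b) ≠ 0 := by positivity
  field_simp
  rw [← hq]
  ring

theorem sum_flags (T : V →ₗ[F] V) (m : ℕ) (hn : finrank F V = 3 * m) (Q : ℝ) :
    ∑ j ∈ triples (3 * m), ct Q m j.1 j.2.1 j.2.2 * (Y2 T j.1 j.2.1 : ℝ)
      = ∑ U ∈ univ.filter (fun U : Submodule F V => St T U),
        ∑ w ∈ range (3 * m - dm U + 1), ct Q m w (3 * m - dm U - w) (dm U)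
          * (Nw T U ⊤ w : ℝ) := by
  have e1 : ∀ j ∈ triples (3 * m), ct Q m j.1 j.2.1 j.2.2 * (Y2 T j.1 j.2.1 : ℝ)
      = ∑ U ∈ univ.filter (fun U : Submodule F V => St T U),
        (if j.2.2 = dm U then ct Q m j.1 j.2.1 j.2.2 * (Nw T U ⊤ j.1 : ℝ) else 0) := by
    intro j hj
    rw [mem_triples] at hj
    rw [Y2_cyc T j.1 j.2.1 j.2.2 (by rw [hn]; exact hj), Y2_left, ← Finset.filter_filter,
      Finset.sum_filter]
    push_cast
    rw [Finset.mul_sum]
    apply Finset.sum_congr rfl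
    intro U _
    by_cases h : dm U = j.2.2
    · rw [if_pos h, if_pos h.symm]
    · rw [if_neg h, if_neg (fun h2 => h h2.symm), mul_zero]
  rw [Finset.sum_congr rfl e1, Finset.sum_comm]
  apply Finset.sum_congr rfl
  intro U hU
  have hdU : dm U ≤ 3 * m := by
    rw [← hn, ← dm_top (F := F) (V := V)]; exact dm_mono le_top
  exact triples_fix (3 * m) (dm U) hdU (fun a b c => ct Q m a b c * (Nw T U ⊤ a : ℝ))

/-- **The universal formula, real form.** -/
theorem main_real (T : V →ₗ[F] V) (m : ℕ) (hn : finrank F V = 3 * m) :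
    (sig T m : ℝ) = ∑ j ∈ triples (3 * m),
      ct (Fintype.card F) m j.1 j.2.1 j.2.2 * (Y2 T j.1 j.2.1 : ℝ) := by
  have hq0 : 0 < Fintype.card F := Fintype.card_pos
  have hqr : (0 : ℝ) < (Fintype.card F : ℝ) := by exact_mod_cast hq0
  obtain ⟨z, hz⟩ : ∃ z : ℝ, z = (Fintype.card F : ℝ) ^ ((m : ℤ) - 1) := ⟨_, rfl⟩
  have hz0 : z ^ m ≠ 0 := by
    have : z ≠ 0 := by rw [hz]; exact zpow_ne_zero _ hqr.ne'
    positivity
  have k1 := KB (F := F) z (T ∘ₗ T) (fun X => X ⊔ X.map T) (fun C => C ⊓ C.comap T)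
    (by
      intro X C
      rw [sup_le_iff, le_inf_iff, Submodule.map_le_iff_le_comap]
      )
  rw [KB_left T m hn z hz, KB_right T z] at k1
  rw [sum_flags T m hn]
  have e2 : ∀ U ∈ univ.filter (fun U : Submodule F V => St T U),
      ∑ w ∈ range (3 * m - dm U + 1), ct (Fintype.card F) m w (3 * m - dm U - w) (dm U)
          * (Nw T U ⊤ w : ℝ)
      = (∑ C ∈ Aset T U ⊤, muF F ℝ (finrank F V - dm C) * z ^ (dm U)) * (z ^ m)⁻¹ := by
    intro U hU
    simp only [mem_filter, mem_univ, true_and] at hU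
    exact stepU T m hn z hz U hU
  rw [Finset.sum_congr rfl e2, ← Finset.sum_mul, ← k1, mul_assoc, mul_inv_cancel₀ hz0, mul_one]

/-! ### the form with cube roots of unity -/

theorem omega_sum {ω : ℂ} (hω : IsPrimitiveRoot ω 3) : ω + ω ^ 2 = -1 := by
  have h := hω.geom_sum_eq_zero (by norm_num)
  rw [Finset.sum_range_succ, Finset.sum_range_succ, Finset.sum_range_one] at h
  linear_combination h

theorem omega_pow {ω : ℂ} (hω : IsPrimitiveRoot ω 3) (n : ℕ) : ω ^ n = ω ^ (n % 3) :=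
  pow_eq_pow_mod n hω.pow_eq_one

theorem sum_swap23 (n : ℕ) (f : ℕ × ℕ × ℕ → ℂ) :
    ∑ j ∈ triples n, f (j.1, j.2.2, j.2.1) = ∑ j ∈ triples n, f j := by
  refine Finset.sum_bij' (fun j _ => (j.1, j.2.2, j.2.1)) (fun j _ => (j.1, j.2.2, j.2.1))
    ?_ ?_ ?_ ?_ ?_
  · intro j hj
    rw [mem_triples] at hj ⊢
    simp only; omega
  · intro j hj
    rw [mem_triples] at hj ⊢
    simp only; omega
  · intro j hj; rfl
  · intro j hj; rfl
  · intro j hj; rfl

theorem omega_form {ω : ℂ} (hω : IsPrimitiveRoot ω 3) (n : ℕ) (A : ℕ × ℕ × ℕ → ℂ) :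
    ∑ j ∈ triples n, ω ^ (j.2.1 + 2 * j.2.2)
        * (if (j.2.1 + 2 * j.2.2) % 3 = 2 then A (j.1, j.2.2, j.2.1) else A j)
      = ∑ j ∈ triples n, (if (j.2.1 + 2 * j.2.2) % 3 = 0 then A j
          else if (j.2.1 + 2 * j.2.2) % 3 = 1 then - A j else 0) := by
  have e1 : ∀ j ∈ triples n, ω ^ (j.2.1 + 2 * j.2.2)
        * (if (j.2.1 + 2 * j.2.2) % 3 = 2 then A (j.1, j.2.2, j.2.1) else A j)
      = (if (j.2.1 + 2 * j.2.2) % 3 = 0 then A j
          else if (j.2.1 + 2 * j.2.2) % 3 = 1 then ω * A j else 0)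
        + (if (j.2.1 + 2 * j.2.2) % 3 = 2 then ω ^ 2 * A (j.1, j.2.2, j.2.1) else 0) := by
    intro j _
    rw [omega_pow hω]
    have h : (j.2.1 + 2 * j.2.2) % 3 = 0 ∨ (j.2.1 + 2 * j.2.2) % 3 = 1
      ∨ (j.2.1 + 2 * j.2.2) % 3 = 2 := by omega
    rcases h with h | h | h <;> rw [h] <;> simp
  rw [Finset.sum_congr rfl e1, Finset.sum_add_distrib]
  have e2 : ∑ j ∈ triples n, (if (j.2.1 + 2 * j.2.2) % 3 = 2
        then ω ^ 2 * A (j.1, j.2.2, j.2.1) else 0)
      = ∑ j ∈ triples n, (if (j.2.1 + 2 * j.2.2) % 3 = 1 then ω ^ 2 * A j else 0) := by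
    rw [← sum_swap23 n (fun j => if (j.2.1 + 2 * j.2.2) % 3 = 1 then ω ^ 2 * A j else 0)]
    apply Finset.sum_congr rfl
    intro j _
    simp only
    by_cases h : (j.2.1 + 2 * j.2.2) % 3 = 2
    · rw [if_pos h, if_pos (by omega)]
    · rw [if_neg h, if_neg (by omega)]
  rw [e2, ← Finset.sum_add_distrib]
  apply Finset.sum_congr rfl
  intro j _
  have h : (j.2.1 + 2 * j.2.2) % 3 = 0 ∨ (j.2.1 + 2 * j.2.2) % 3 = 1
      ∨ (j.2.1 + 2 * j.2.2) % 3 = 2 := by omega
  have hs := omega_sum hω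
  rcases h with h | h | h
  · rw [h]; simp
  · rw [h]; simp only [one_ne_zero, if_false, if_true]
    linear_combination (A j) * hs
  · rw [h]; simp

/-- **The universal formula, complex form.** -/
theorem main_complex (T : V →ₗ[F] V) (m : ℕ) (hn : finrank F V = 3 * m) {ω : ℂ}
    (hω : IsPrimitiveRoot ω 3) :
    (sig T m : ℂ) = ∑ j ∈ triples (3 * m), ω ^ (j.2.1 + 2 * j.2.2)
      * (if (j.2.1 + 2 * j.2.2) % 3 = 2
          then (Fintype.card F : ℂ) ^ (ex m j.1 j.2.2 j.2.1)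
          else (Fintype.card F : ℂ) ^ (ex m j.1 j.2.1 j.2.2)) * (Y2 T j.1 j.2.1 : ℂ) := by
  have h1 := main_real T m hn
  have h2 := omega_form hω (3 * m)
    (fun j => (Fintype.card F : ℂ) ^ (ex m j.1 j.2.1 j.2.2) * (Y2 T j.1 j.2.1 : ℂ))
  have h3 : (sig T m : ℂ) = ∑ j ∈ triples (3 * m), (if (j.2.1 + 2 * j.2.2) % 3 = 0
        then (Fintype.card F : ℂ) ^ (ex m j.1 j.2.1 j.2.2) * (Y2 T j.1 j.2.1 : ℂ)
          else if (j.2.1 + 2 * j.2.2) % 3 = 1
            then - ((Fintype.card F : ℂ) ^ (ex m j.1 j.2.1 j.2.2) * (Y2 T j.1 j.2.1 : ℂ))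
            else 0) := by
    have h4 : ((sig T m : ℝ) : ℂ) = ((∑ j ∈ triples (3 * m),
      ct (Fintype.card F) m j.1 j.2.1 j.2.2 * (Y2 T j.1 j.2.1 : ℝ) : ℝ) : ℂ) := by rw [h1]
    rw [Complex.ofReal_natCast, Complex.ofReal_sum] at h4
    rw [h4]
    apply Finset.sum_congr rfl
    intro j _
    unfold ct
    split_ifs <;> push_cast <;> ring
  rw [h3, ← h2]
  apply Finset.sum_congr rfl
  intro j hj
  rw [mem_triples] at hj
  by_cases h : (j.2.1 + 2 * j.2.2) % 3 = 2
  · rw [if_pos h, if_pos h, Y2_swap23 T j.1 j.2.1 j.2.2 (by rw [hn]; exact hj)]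
    ring
  · rw [if_neg h, if_neg h]
    ring

end

end Pool.Agent.W35.Sub3
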